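import Pool.Graph.R_seed8.R732.Net.Final

/-!
Curvature flow of networks with surface tensions: the abstract setting, the weighted length.

Adapted from `R732/Net/Core.lean` of the library: the curves carry positive weights `c i` (surface
tensions), the junctions may have any number of curves and the weighted sum of the exterior
tangents vanishes there; the angles at the junctions are constant in time.
-/

set_option autoImplicit false

open Set Filter Topology MeasureTheory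

namespace Pool.Agent.KS6_83.NT

open Pool.Agent.R732.Net

/-- exterior unit tangent at the curve end `d` at time `t` -/
noncomputable def TT {ι : Type*} (ux : ι → ℝ → ℝ → ℂ) (t : ℝ) (d : ι × Bool) : ℂ :=
  sgn d.2 • un (ux d.1 t (par d.2))

/-- exterior direction at the curve end `d` -/
noncomputable def EE {ι : Type*} (e : ι → ℂ) (d : ι × Bool) : ℂ := sgn d.2 • e d.1

/-- A network flow with tensions, in terms of curve ends and vertices. The vertices in `Bd` are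
fixed, the other ones are junctions. -/
structure WFlow {ι W : Type*} [Fintype ι] [Fintype W] [DecidableEq W] (c : ι → ℝ)
    (u ux uxx ut : ι → ℝ → ℝ → ℂ) (vtx : ι × Bool → W) (p : W → ℝ → ℂ) (Bd : Set W) : Prop where
  cpos : ∀ i, 0 < c i
  data : ∀ i, CData (u i) (ux i) (uxx i) (ut i)
  reg : ∀ i, ∀ t > 0, ∀ x ∈ Icc (0:ℝ) 1, ux i t x ≠ 0
  mot : ∀ i, ∀ t > 0, ∀ x ∈ Icc (0:ℝ) 1, Moves (ux i t x) (uxx i t x) (ut i t x)
  pos : ∀ e : ι × Bool, ∀ t > 0, u e.1 t (par e.2) = p (vtx e) t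
  fix : ∀ w ∈ Bd, ∀ t > 0, p w t = p w 1
  bal : ∀ w ∉ Bd, ∀ t > 0,
    ∑ d ∈ Finset.univ.filter (fun d => vtx d = w), c d.1 • TT ux t d = 0
  ang : ∀ d d', vtx d = vtx d' → vtx d ∉ Bd → ∀ t > 0, ∀ s > 0,
    TT ux t d * (starRingEnd ℂ) (TT ux t d') = TT ux s d * (starRingEnd ℂ) (TT ux s d')
  nondeg : ∀ w ∉ Bd, ∀ v : ℂ, v ≠ 0 → ∃ d, vtx d = w ∧ inner ℝ v (TT ux 1 d) ≠ 0

variable {ι W : Type*} [Fintype ι] [Fintype W] [DecidableEq W] {c : ι → ℝ}
  {u ux uxx ut : ι → ℝ → ℝ → ℂ} {vtx : ι × Bool → W} {p : W → ℝ → ℂ} {Bd : Set W}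

namespace WFlow

lemma vel (h : WFlow c u ux uxx ut vtx p Bd) {t : ℝ} (ht : 0 < t) (e : ι × Bool) :
    ut e.1 t (par e.2) = deriv (p (vtx e)) t := by
  have h1 := (h.data e.1).ht t ht (par e.2) (par_mem _)
  have h2 : HasDerivAt (p (vtx e)) (ut e.1 t (par e.2)) t := by
    refine h1.congr_of_eventuallyEq ?_
    filter_upwards [lt_mem_nhds ht] with s hs
    exact (h.pos e s hs).symm
  exact h2.deriv.symm

lemma vel_bd (h : WFlow c u ux uxx ut vtx p Bd) {t : ℝ} (ht : 0 < t) {w : W} (hw : w ∈ Bd) :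
    deriv (p w) t = 0 := by
  have h2 : HasDerivAt (p w) 0 t := by
    refine (hasDerivAt_const t (p w 1)).congr_of_eventuallyEq ?_
    filter_upwards [lt_mem_nhds ht] with s hs
    exact h.fix w hw s hs
  exact h2.deriv

lemma boundary_sum (h : WFlow c u ux uxx ut vtx p Bd) {t : ℝ} (ht : 0 < t) (A : ι × Bool → ℂ)
    (hA : ∀ w ∉ Bd, ∑ e ∈ Finset.univ.filter (fun e => vtx e = w), sgn e.2 • A e = 0) :
    ∑ i, (inner ℝ (A (i, true)) (ut i t 1) - inner ℝ (A (i, false)) (ut i t 0)) = 0 := by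
  refine sum_ends vtx (fun e => inner ℝ (A e) (ut e.1 t (par e.2))) (fun w => ?_)
  have h1 : ∑ e ∈ Finset.univ.filter (fun e => vtx e = w),
      sgn e.2 * inner ℝ (A e) (ut e.1 t (par e.2)) =
      inner ℝ (∑ e ∈ Finset.univ.filter (fun e => vtx e = w), sgn e.2 • A e) (deriv (p w) t) := by
    rw [sum_inner]
    refine Finset.sum_congr rfl (fun e he => ?_)
    rw [real_inner_smul_left, h.vel ht e, (Finset.mem_filter.1 he).2]
  rw [h1]
  by_cases hw : w ∈ Bd
  · rw [h.vel_bd ht hw, inner_zero_right]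
  · rw [hA w hw, inner_zero_left]

/-- Total weighted length. -/
noncomputable def Len (c : ι → ℝ) (ux : ι → ℝ → ℝ → ℂ) (t : ℝ) : ℝ :=
  ∑ i, c i * ∫ x in (0:ℝ)..1, ‖ux i t x‖

/-- Total weighted squared curvature. -/
noncomputable def KK (c : ι → ℝ) (ux uxx : ι → ℝ → ℝ → ℂ) (t : ℝ) : ℝ :=
  ∑ i, c i * ∫ x in (0:ℝ)..1, kap (ux i t x) (uxx i t x) ^ 2 * ‖ux i t x‖

omit [Fintype ι] in
lemma Li_nonneg (ux : ι → ℝ → ℝ → ℂ) (i : ι) (t : ℝ) : 0 ≤ ∫ x in (0:ℝ)..1, ‖ux i t x‖ :=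
  intervalIntegral.integral_nonneg zero_le_one (fun x _ => norm_nonneg _)

omit [Fintype ι] in
lemma KKi_nonneg (ux uxx : ι → ℝ → ℝ → ℂ) (i : ι) (t : ℝ) :
    0 ≤ ∫ x in (0:ℝ)..1, kap (ux i t x) (uxx i t x) ^ 2 * ‖ux i t x‖ :=
  intervalIntegral.integral_nonneg zero_le_one (fun x _ => by positivity)

lemma Len_nonneg (h : WFlow c u ux uxx ut vtx p Bd) (t : ℝ) : 0 ≤ Len c ux t :=
  Finset.sum_nonneg (fun i _ => mul_nonneg (h.cpos i).le (Li_nonneg ux i t))

lemma KK_nonneg (h : WFlow c u ux uxx ut vtx p Bd) (t : ℝ) : 0 ≤ KK c ux uxx t :=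
  Finset.sum_nonneg (fun i _ => mul_nonneg (h.cpos i).le (KKi_nonneg ux uxx i t))

lemma Len_deriv (h : WFlow c u ux uxx ut vtx p Bd) {t : ℝ} (ht : 0 < t) :
    HasDerivAt (Len c ux) (-KK c ux uxx t) t := by
  have h1 : HasDerivAt (Len c ux) (∑ i, c i * (inner ℝ ((‖ux i t 1‖⁻¹ : ℝ) • ux i t 1) (ut i t 1)
      - inner ℝ ((‖ux i t 0‖⁻¹ : ℝ) • ux i t 0) (ut i t 0)
        - ∫ x in (0:ℝ)..1, kap (ux i t x) (uxx i t x) ^ 2 * ‖ux i t x‖)) t := by
    have := HasDerivAt.fun_sum (u := Finset.univ) (fun i _ =>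
      (length_deriv (h.data i) (h.reg i) (h.mot i) ht).const_mul (c i))
    exact this
  refine h1.congr_deriv ?_
  have h2 := h.boundary_sum ht (fun e => c e.1 • un (ux e.1 t (par e.2))) (fun w hw => by
    rw [← h.bal w hw t ht]
    refine Finset.sum_congr rfl (fun d _ => ?_)
    rw [TT, smul_comm])
  simp only [par, cond_true, cond_false, un, real_inner_smul_left] at h2
  simp only [mul_sub, real_inner_smul_left]
  rw [Finset.sum_sub_distrib, KK, h2, zero_sub]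

lemma Len_anti (h : WFlow c u ux uxx ut vtx p Bd) : AntitoneOn (Len c ux) (Ioi 0) := by
  refine antitoneOn_of_deriv_nonpos (convex_Ioi 0)
    (fun t ht => (h.Len_deriv ht).continuousAt.continuousWithinAt) ?_ ?_
  · intro t ht
    rw [interior_Ioi] at ht
    exact (h.Len_deriv ht).differentiableAt.differentiableWithinAt
  · intro t ht
    rw [interior_Ioi] at ht
    rw [(h.Len_deriv ht).deriv]
    linarith [h.KK_nonneg t]

lemma exists_small_KK (h : WFlow c u ux uxx ut vtx p Bd) {η T : ℝ} (hη : 0 < η) (hT : 0 < T) :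
    ∃ t ≥ T, KK c ux uxx t < η := by
  by_contra hc
  push Not at hc
  have hd : ∀ t > 0, HasDerivAt (fun s => Len c ux s + η * s) (-KK c ux uxx t + η) t := by
    intro t ht
    have h1 : HasDerivAt (fun s => Len c ux s + η * s) _ t :=
      (h.Len_deriv ht).add ((hasDerivAt_id t).const_mul η)
    refine h1.congr_deriv ?_
    ring
  have ha : AntitoneOn (fun s => Len c ux s + η * s) (Ici T) := by
    refine antitoneOn_of_deriv_nonpos (convex_Ici T)
      (fun t ht => (hd t (hT.trans_le ht)).continuousAt.continuousWithinAt) ?_ ?_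
    · intro t ht
      rw [interior_Ici] at ht
      exact (hd t (hT.trans ht)).differentiableAt.differentiableWithinAt
    · intro t ht
      rw [interior_Ici] at ht
      rw [(hd t (hT.trans ht)).deriv]
      linarith [hc t (le_of_lt ht)]
  have hL := h.Len_nonneg T
  have h0 : 0 ≤ Len c ux T / η := by positivity
  have h1 := ha (a := T) (b := T + (Len c ux T / η + 1)) (by simp)
    (by simp only [mem_Ici]; linarith) (by linarith)
  simp only at h1
  have h2 := h.Len_nonneg (T + (Len c ux T / η + 1))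
  have h3 : η * (T + (Len c ux T / η + 1)) = η * T + Len c ux T + η := by
    field_simp
    ring
  rw [h3] at h1
  linarith

/-- a bound of the length of every curve at all times `≥ 1` -/
noncomputable def LB (c : ι → ℝ) (ux : ι → ℝ → ℝ → ℂ) : ℝ := (∑ i, (c i)⁻¹) * Len c ux 1

lemma LB_nonneg (h : WFlow c u ux uxx ut vtx p Bd) : 0 ≤ LB c ux :=
  mul_nonneg (Finset.sum_nonneg fun i _ => (inv_pos.2 (h.cpos i)).le) (h.Len_nonneg 1)

lemma len_le (h : WFlow c u ux uxx ut vtx p Bd) {t : ℝ} (ht : 1 ≤ t) (i : ι) :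
    ∫ x in (0:ℝ)..1, ‖ux i t x‖ ≤ LB c ux := by
  have h3 : c i * ∫ x in (0:ℝ)..1, ‖ux i t x‖ ≤ Len c ux t :=
    Finset.single_le_sum (f := fun i => c i * ∫ x in (0:ℝ)..1, ‖ux i t x‖)
      (fun j _ => mul_nonneg (h.cpos j).le (Li_nonneg ux j t)) (Finset.mem_univ i)
  have h4 : Len c ux t ≤ Len c ux 1 :=
    h.Len_anti (by simp : (1:ℝ) ∈ Ioi 0) (by simp only [mem_Ioi]; linarith) ht
  have h5 : (c i)⁻¹ ≤ ∑ i, (c i)⁻¹ :=
    Finset.single_le_sum (f := fun i => (c i)⁻¹) (fun j _ => (inv_pos.2 (h.cpos j)).le)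
      (Finset.mem_univ i)
  have h6 := h.cpos i
  calc ∫ x in (0:ℝ)..1, ‖ux i t x‖ = (c i)⁻¹ * (c i * ∫ x in (0:ℝ)..1, ‖ux i t x‖) := by
        field_simp
    _ ≤ (c i)⁻¹ * Len c ux 1 := mul_le_mul_of_nonneg_left (h3.trans h4) (inv_pos.2 h6).le
    _ ≤ LB c ux := mul_le_mul_of_nonneg_right h5 (h.Len_nonneg 1)

lemma KK_le (h : WFlow c u ux uxx ut vtx p Bd) (t : ℝ) (i : ι) :
    ∫ x in (0:ℝ)..1, kap (ux i t x) (uxx i t x) ^ 2 * ‖ux i t x‖ ≤
      (∑ i, (c i)⁻¹) * KK c ux uxx t := by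
  have h3 : c i * ∫ x in (0:ℝ)..1, kap (ux i t x) (uxx i t x) ^ 2 * ‖ux i t x‖ ≤ KK c ux uxx t :=
    Finset.single_le_sum
      (f := fun i => c i * ∫ x in (0:ℝ)..1, kap (ux i t x) (uxx i t x) ^ 2 * ‖ux i t x‖)
      (fun j _ => mul_nonneg (h.cpos j).le (KKi_nonneg ux uxx j t)) (Finset.mem_univ i)
  have h5 : (c i)⁻¹ ≤ ∑ i, (c i)⁻¹ :=
    Finset.single_le_sum (f := fun i => (c i)⁻¹) (fun j _ => (inv_pos.2 (h.cpos j)).le)
      (Finset.mem_univ i)
  have h6 := h.cpos i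
  calc ∫ x in (0:ℝ)..1, kap (ux i t x) (uxx i t x) ^ 2 * ‖ux i t x‖
      = (c i)⁻¹ * (c i * ∫ x in (0:ℝ)..1, kap (ux i t x) (uxx i t x) ^ 2 * ‖ux i t x‖) := by
        field_simp
    _ ≤ (c i)⁻¹ * KK c ux uxx t := mul_le_mul_of_nonneg_left h3 (inv_pos.2 h6).le
    _ ≤ _ := mul_le_mul_of_nonneg_right h5 (h.KK_nonneg t)

end WFlow

end Pool.Agent.KS6_83.NT
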