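import Pool.Agent.KS6_83.NT.A

/-!
Curvature flow of networks with surface tensions: convergence of the tangent directions.
-/

set_option autoImplicit false

open Set Filter Topology MeasureTheory

namespace Pool.Agent.KS6_83.NT

open Pool.Agent.R732.Net

variable {ι W : Type*} [Fintype ι] [Fintype W] [DecidableEq W] {c : ι → ℝ}
  {u ux uxx ut : ι → ℝ → ℝ → ℂ} {vtx : ι × Bool → W} {p : W → ℝ → ℂ} {Bd : Set W}

lemma norm_sgn_smul (b : Bool) (z : ℂ) : ‖sgn b • z‖ = ‖z‖ := by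
  rw [norm_smul]
  cases b <;> simp [sgn]

/-- A family of unit directions, one for each curve, balanced at the junctions and with the right
angles there. -/
structure Dirs (c : ι → ℝ) (ux : ι → ℝ → ℝ → ℂ) (vtx : ι × Bool → W) (Bd : Set W) (e : ι → ℂ) :
    Prop where
  norm : ∀ i, ‖e i‖ = 1
  bal : ∀ w ∉ Bd, ∑ d ∈ Finset.univ.filter (fun d => vtx d = w), c d.1 • EE e d = 0
  ang : ∀ d d', vtx d = vtx d' → vtx d ∉ Bd → ∀ t > 0,
    TT ux t d * (starRingEnd ℂ) (TT ux t d') = EE e d * (starRingEnd ℂ) (EE e d')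

omit [Fintype ι] in
lemma norm_TT (hreg : ∀ i, ∀ t > 0, ∀ x ∈ Icc (0:ℝ) 1, ux i t x ≠ 0) {t : ℝ} (ht : 0 < t)
    (d : ι × Bool) : ‖TT ux t d‖ = 1 := by
  rw [TT, norm_sgn_smul, norm_un (hreg d.1 t ht _ (par_mem _))]

omit [Fintype ι] in
lemma norm_EE {e : ι → ℂ} (he : ∀ i, ‖e i‖ = 1) (d : ι × Bool) : ‖EE e d‖ = 1 := by
  rw [EE, norm_sgn_smul, he]

/-- Along a sequence of times, the tangents converge to a balanced family of directions. -/
lemma WFlow.exists_dirs (h : WFlow c u ux uxx ut vtx p Bd) :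
    ∃ e : ι → ℂ, Dirs c ux vtx Bd e ∧ ∀ ε > 0, ∀ T > 0, ∃ t ≥ T, ∀ i, ∀ x ∈ Icc (0:ℝ) 1,
      ‖un (ux i t x) - e i‖ < ε := by
  have hη : ∀ n : ℕ, (0:ℝ) < 1 / (n + 1) := fun n => by positivity
  choose t ht hK using fun n : ℕ =>
    h.exists_small_KK (η := (1 / ((n:ℝ) + 1)) ^ 2) (T := (n:ℝ) + 1) (by positivity) (by positivity)
  have htpos : ∀ n, 0 < t n := fun n => lt_of_lt_of_le (by positivity) (ht n)
  have ht1 : ∀ n, 1 ≤ t n := fun n => by
    have := ht n
    have h4 : (0:ℝ) ≤ n := Nat.cast_nonneg n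
    linarith
  set S : ℝ := ∑ i, (c i)⁻¹ with hS
  have hS0 : 0 ≤ S := Finset.sum_nonneg fun i _ => (inv_pos.2 (h.cpos i)).le
  have hosc : ∀ n i, ∀ x ∈ Icc (0:ℝ) 1, ‖un (ux i (t n) x) - un (ux i (t n) 0)‖ ≤
      (1 / ((n:ℝ) + 1)) * (WFlow.LB c ux + S) := by
    intro n i x hx
    have h1 := osc_tangent (f := ux i (t n)) (f' := uxx i (t n))
      ((h.data i).hxx (t n) (htpos n)) (slice_cont (J := Ioi 0) (htpos n) (h.data i).cxx)
      (h.reg i (t n) (htpos n)) (hη n) hx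
    have h2 : ∫ x in (0:ℝ)..1, ‖ux i (t n) x‖ ≤ WFlow.LB c ux := h.len_le (ht1 n) i
    have h3 : ∫ x in (0:ℝ)..1, kap (ux i (t n) x) (uxx i (t n) x) ^ 2 * ‖ux i (t n) x‖ ≤
        S * (1 / ((n:ℝ) + 1)) ^ 2 :=
      (h.KK_le (t n) i).trans (mul_le_mul_of_nonneg_left (hK n).le hS0)
    refine h1.trans ?_
    have h4 := mul_le_mul_of_nonneg_left h2 (hη n).le
    have h5 := mul_le_mul_of_nonneg_left h3 (inv_pos.2 (hη n)).le
    have h6 : (1 / ((n:ℝ) + 1))⁻¹ * (S * (1 / ((n:ℝ) + 1)) ^ 2) = 1 / ((n:ℝ) + 1) * S := by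
      field_simp
    rw [h6] at h5
    linarith
  have hKc : IsCompact (Set.pi univ (fun _ : ι => Metric.sphere (0:ℂ) 1)) :=
    isCompact_univ_pi (fun _ => isCompact_sphere _ _)
  obtain ⟨a, ha, φ, hφ, hlim⟩ := hKc.tendsto_subseq (x := fun n i => un (ux i (t n) 0))
    (fun n i _ => by
      simp only [mem_sphere_iff_norm, sub_zero]
      exact norm_un (h.reg i (t n) (htpos n) 0 ⟨le_rfl, zero_le_one⟩))
  have hsmall : Tendsto (fun n : ℕ => (1 / (((φ n : ℕ) : ℝ) + 1)) * (WFlow.LB c ux + S)) atTop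
      (𝓝 0) := by
    have h1 := (tendsto_one_div_add_atTop_nhds_zero_nat (𝕜 := ℝ)).comp hφ.tendsto_atTop
    have h2 := h1.mul_const (WFlow.LB c ux + S)
    rw [zero_mul] at h2
    exact h2
  have hunif : ∀ i, ∀ ε > 0, ∀ᶠ n in atTop, ∀ x ∈ Icc (0:ℝ) 1,
      ‖un (ux i (t (φ n)) x) - a i‖ < ε := by
    intro i ε hε
    have h1 : Tendsto (fun n => un (ux i (t (φ n)) 0)) atTop (𝓝 (a i)) :=
      (tendsto_pi_nhds.1 hlim) i
    have h2 := (Metric.tendsto_atTop.1 h1 (ε / 2) (half_pos hε))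
    have h3 := hsmall.eventually (gt_mem_nhds (half_pos hε))
    obtain ⟨N, hN⟩ := h2
    filter_upwards [h3, eventually_ge_atTop N] with n h4 h5 x hx
    have h6 := hN n h5
    rw [dist_eq_norm] at h6
    have h7 := hosc (φ n) i x hx
    calc ‖un (ux i (t (φ n)) x) - a i‖ = ‖(un (ux i (t (φ n)) x) - un (ux i (t (φ n)) 0)) +
          (un (ux i (t (φ n)) 0) - a i)‖ := by congr 1; ring
      _ ≤ _ := norm_add_le _ _
      _ < ε := by linarith
  have hT : ∀ d : ι × Bool, Tendsto (fun n => TT ux (t (φ n)) d) atTop (𝓝 (EE a d)) := by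
    intro d
    refine Tendsto.const_smul ?_ _
    rw [Metric.tendsto_atTop']
    intro ε hε
    obtain ⟨N, hN⟩ := (hunif d.1 ε hε).exists_forall_of_atTop
    refine ⟨N, fun n hn => ?_⟩
    rw [dist_eq_norm]
    exact hN n hn.le _ (par_mem _)
  refine ⟨a, ⟨fun i => ?_, fun w hw => ?_, fun d d' hd hB s hs => ?_⟩, ?_⟩
  · have := ha i (mem_univ i)
    simpa using this
  · have h1 : Tendsto (fun n => ∑ d ∈ Finset.univ.filter (fun d => vtx d = w),
        c d.1 • TT ux (t (φ n)) d) atTop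
        (𝓝 (∑ d ∈ Finset.univ.filter (fun d => vtx d = w), c d.1 • EE a d)) :=
      tendsto_finsetSum _ (fun d _ => Tendsto.const_smul (hT d) _)
    have h2 : (fun n => ∑ d ∈ Finset.univ.filter (fun d => vtx d = w),
        c d.1 • TT ux (t (φ n)) d) = fun _ => 0 := by
      funext n
      exact h.bal w hw _ (htpos _)
    rw [h2] at h1
    exact (tendsto_nhds_unique h1 tendsto_const_nhds)
  · have h1 : Tendsto (fun n => TT ux (t (φ n)) d * (starRingEnd ℂ) (TT ux (t (φ n)) d')) atTop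
        (𝓝 (EE a d * (starRingEnd ℂ) (EE a d'))) :=
      (hT d).mul ((Complex.continuous_conj.tendsto _).comp (hT d'))
    have h2 : (fun n => TT ux (t (φ n)) d * (starRingEnd ℂ) (TT ux (t (φ n)) d')) =
        fun _ => TT ux s d * (starRingEnd ℂ) (TT ux s d') := by
      funext n
      exact h.ang d d' hd hB _ (htpos _) s hs
    rw [h2] at h1
    exact tendsto_nhds_unique tendsto_const_nhds h1
  · intro ε hε T hT
    have h1 : ∀ᶠ n in atTop, ∀ i, ∀ x ∈ Icc (0:ℝ) 1, ‖un (ux i (t (φ n)) x) - a i‖ < ε := by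
      rw [eventually_all]
      exact fun i => hunif i ε hε
    obtain ⟨k, hk⟩ := exists_nat_ge T
    obtain ⟨n, hn1, hn2⟩ := (h1.and (eventually_ge_atTop k)).exists
    refine ⟨t (φ n), ?_, hn1⟩
    have h3 := ht (φ n)
    have h4 : k ≤ φ n := hn2.trans (hφ.id_le n)
    have h5 : (k : ℝ) ≤ φ n := by exact_mod_cast h4
    linarith

/-- two pairs of unit vectors with the same angle -/
lemma rot_of_ang {T1 T2 E1 E2 : ℂ} (hT2 : ‖T2‖ = 1) (hE1 : ‖E1‖ = 1)
    (h : T1 * (starRingEnd ℂ) T2 = E1 * (starRingEnd ℂ) E2) :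
    T1 * (starRingEnd ℂ) E1 = T2 * (starRingEnd ℂ) E2 := by
  have cj : ∀ z : ℂ, ‖z‖ = 1 → z * (starRingEnd ℂ) z = 1 := fun z hz => by
    rw [Complex.mul_conj, Complex.normSq_eq_norm_sq, hz]; simp
  have a2 := cj T2 hT2
  have b1 := cj E1 hE1
  calc T1 * (starRingEnd ℂ) E1 = (T1 * (starRingEnd ℂ) T2) * T2 * (starRingEnd ℂ) E1 := by
        linear_combination (-(T1 * (starRingEnd ℂ) E1)) * a2
    _ = (E1 * (starRingEnd ℂ) E2) * T2 * (starRingEnd ℂ) E1 := by rw [h]
    _ = T2 * (starRingEnd ℂ) E2 := by linear_combination (T2 * (starRingEnd ℂ) E2) * b1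

/-- At a junction, the slopes of the curves are equal. -/
lemma WFlow.slopes_eq (h : WFlow c u ux uxx ut vtx p Bd) {e : ι → ℂ} (he : Dirs c ux vtx Bd e)
    {t : ℝ} (ht : 0 < t) {w : W} (hw : w ∉ Bd) :
    ∃ y, ∀ d, vtx d = w → slp (e d.1) (ux d.1 t (par d.2)) = y := by
  by_cases hex : ∃ d0, vtx d0 = w
  · obtain ⟨d0, hd0⟩ := hex
    refine ⟨slp (e d0.1) (ux d0.1 t (par d0.2)), fun d hd => ?_⟩
    have h1 := he.ang d d0 (hd.trans hd0.symm) (by rw [hd]; exact hw) t ht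
    have h2 := rot_of_ang (norm_TT h.reg ht d0) (norm_EE he.norm d) h1
    exact slp_eq_of_rot (sgn_sq _) (sgn_sq _) rfl rfl rfl rfl
      (h.reg d.1 t ht _ (par_mem _)) (h.reg d0.1 t ht _ (par_mem _)) h2
  · exact ⟨0, fun d hd => absurd ⟨d, hd⟩ hex⟩

/-- The penalty functional is monotone. -/
lemma WFlow.penalty_deriv (h : WFlow c u ux uxx ut vtx p Bd) {e : ι → ℂ}
    (he : Dirs c ux vtx Bd e) {a b m : ℝ} (ha : 0 ≤ a)
    (hpos : ∀ s ∈ Ioo a b, ∀ i, ∀ x ∈ Icc (0:ℝ) 1, 0 < inner ℝ (e i) (ux i s x))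
    {t : ℝ} (ht : t ∈ Ioo a b) :
    ∃ D ≥ 0, HasDerivAt (fun s => ∑ i, c i * ∫ x in (0:ℝ)..1, gg m (e i) (ux i s x)) (-D) t := by
  have htp : 0 < t := ha.trans_lt ht.1
  choose D hD hd using fun i => slope_deriv (h.data i) (h.mot i) (m := m) (he.norm i) ha
    (fun s hs x hx => hpos s hs i x hx) ht
  refine ⟨∑ i, c i * D i, Finset.sum_nonneg (fun i _ => mul_nonneg (h.cpos i).le (hD i)), ?_⟩
  have h1 := HasDerivAt.fun_sum (u := Finset.univ) (fun i _ => (hd i).const_mul (c i))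
  refine h1.congr_deriv ?_
  have h2 := h.boundary_sum htp
    (fun d => c d.1 • XX m (e d.1) (slp (e d.1) (ux d.1 t (par d.2)))) (fun w hw => ?_)
  · simp only [par, cond_true, cond_false, real_inner_smul_left] at h2
    simp only [mul_sub]
    rw [Finset.sum_sub_distrib, h2, zero_sub]
  · obtain ⟨y, hy⟩ := h.slopes_eq he htp hw
    have h3 : ∀ d ∈ Finset.univ.filter (fun d => vtx d = w),
        sgn d.2 • (c d.1 • XX m (e d.1) (slp (e d.1) (ux d.1 t (par d.2)))) =
        (((ph m y - y * ph' m y : ℝ) : ℂ) + ((ph' m y : ℝ) : ℂ) * Complex.I) *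
          (c d.1 • EE e d) := by
      intro d hd
      rw [hy d (Finset.mem_filter.1 hd).2, XX, EE]
      simp only [Complex.real_smul]
      ring
    rw [Finset.sum_congr rfl h3, ← Finset.mul_sum, he.bal w hw, mul_zero]

/-- Positivity of the components persists for a short time. -/
lemma WFlow.pos_near (h : WFlow c u ux uxx ut vtx p Bd) {e : ι → ℂ} {t : ℝ} (ht : 0 < t)
    (hpos : ∀ i, ∀ x ∈ Icc (0:ℝ) 1, 0 < inner ℝ (e i) (ux i t x)) :
    ∃ δ > 0, δ ≤ t ∧ ∀ s ∈ Ioo (t - δ) (t + δ), ∀ i, ∀ x ∈ Icc (0:ℝ) 1,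
      0 < inner ℝ (e i) (ux i s x) := by
  have h1 : ∀ i, ∀ᶠ s in 𝓝 t, ∀ x ∈ Icc (0:ℝ) 1, 0 < s → 0 < inner ℝ (e i) (ux i s x) := by
    intro i
    have h2 : ∀ᶠ s in 𝓝 t, ∀ x ∈ Icc (0:ℝ) 1,
        ((s, x) ∈ Ioi (0:ℝ) ×ˢ Icc (0:ℝ) 1 → 0 < inner ℝ (e i) (ux i s x)) := by
      refine isCompact_Icc.eventually_forall_of_forall_eventually (fun x hx => ?_)
      have h3 : ContinuousWithinAt (fun p : ℝ × ℝ => (inner ℝ (e i) (ux i p.1 p.2) : ℝ))
          (Ioi 0 ×ˢ Icc 0 1) (t, x) := (continuousOn_const.inner (𝕜 := ℝ) (h.data i).cx) _ ⟨ht, hx⟩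
      have h4 := h3.eventually (lt_mem_nhds (hpos i x hx))
      exact eventually_nhdsWithin_iff.1 h4
    filter_upwards [h2] with s hs x hx hs0
    exact hs x hx ⟨hs0, hx⟩
  have h2 := (eventually_all.2 h1)
  obtain ⟨δ, hδ, hb⟩ := Metric.eventually_nhds_iff_ball.1 h2
  refine ⟨min δ t, lt_min hδ ht, min_le_right _ _, fun s hs i x hx => ?_⟩
  have h3 := min_le_left δ t
  have h4 := min_le_right δ t
  refine hb s ?_ i x hx ?_
  · rw [Metric.mem_ball, Real.dist_eq, abs_lt]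
    constructor <;> linarith [hs.1, hs.2]
  · linarith [hs.1]

/-- The barrier: once all slopes are at most `m`, they stay so. -/
lemma WFlow.barrier (h : WFlow c u ux uxx ut vtx p Bd) {e : ι → ℂ} (he : Dirs c ux vtx Bd e)
    {m T : ℝ} (hm : 0 < m) (hT : 0 < T) (h0 : Cone ux e m T) : ∀ t ≥ T, Cone ux e m t := by
  intro b hb
  have key : Icc T b ⊆ {t | Cone ux e m t} := by
    apply IsClosed.Icc_subset_of_forall_mem_nhdsWithin (s := {t | Cone ux e m t})
    · have h1 : {t | Cone ux e m t} ∩ Icc T b = Icc T b ∩ ⋂ i, ⋂ x ∈ Icc (0:ℝ) 1, {t ∈ Icc T b |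
          |inner ℝ (Complex.I * e i) (ux i t x)| ≤ m * inner ℝ (e i) (ux i t x)} := by
        ext t
        simp only [mem_inter_iff, mem_ofPred_eq, mem_iInter, Cone]
        constructor
        · rintro ⟨h1, h2⟩
          exact ⟨h2, fun i x hx => ⟨h2, h1 i x hx⟩⟩
        · rintro ⟨h1, h2⟩
          exact ⟨fun i x hx => (h2 i x hx).2, h1⟩
      rw [h1]
      refine isClosed_Icc.inter (isClosed_iInter (fun i => isClosed_biInter (fun x hx => ?_)))
      have hsub : Icc T b ⊆ Ioi 0 := fun s hs => hT.trans_le hs.1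
      have cux : ContinuousOn (fun t => ux i t x) (Icc T b) :=
        (slice_cont_t hx (h.data i).cx).mono hsub
      have cI : ∀ c : ℂ, ContinuousOn (fun t => (inner ℝ c (ux i t x) : ℝ)) (Icc T b) :=
        fun c => continuousOn_const.inner (𝕜 := ℝ) cux
      exact isClosed_Icc.isClosed_le (cI _).abs (continuousOn_const.mul (cI _))
    · exact h0
    · rintro t1 ⟨hc, ht1⟩
      have ht1p : 0 < t1 := hT.trans_le ht1.1
      have hpos : ∀ i, ∀ x ∈ Icc (0:ℝ) 1, 0 < inner ℝ (e i) (ux i t1 x) := fun i x hx =>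
        pos_of_cone (he.norm i) (h.reg i t1 ht1p x hx) hm (hc i x hx)
      obtain ⟨δ, hδ, hδt, hp⟩ := h.pos_near ht1p hpos
      have hF := fun s (hs : s ∈ Ioo (t1 - δ) (t1 + δ)) =>
        h.penalty_deriv he (a := t1 - δ) (b := t1 + δ) (m := m) (by linarith) hp hs
      set F : ℝ → ℝ := fun s => ∑ i, c i * ∫ x in (0:ℝ)..1, gg m (e i) (ux i s x) with hFdef
      have hanti : AntitoneOn F (Ioo (t1 - δ) (t1 + δ)) := by
        refine antitoneOn_of_deriv_nonpos (convex_Ioo _ _) (fun s hs => ?_) (fun s hs => ?_)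
          (fun s hs => ?_)
        · obtain ⟨D, _, hd⟩ := hF s hs
          exact hd.continuousAt.continuousWithinAt
        · rw [interior_Ioo] at hs
          obtain ⟨D, _, hd⟩ := hF s hs
          exact hd.differentiableAt.differentiableWithinAt
        · rw [interior_Ioo] at hs
          obtain ⟨D, hD, hd⟩ := hF s hs
          rw [hd.deriv]; linarith
      have hF0 : F t1 = 0 := by
        refine Finset.sum_eq_zero (fun i _ => ?_)
        have : ∀ x ∈ uIcc (0:ℝ) 1, gg m (e i) (ux i t1 x) = 0 := by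
          intro x hx
          rw [uIcc_of_le zero_le_one] at hx
          rw [gg, ph_eq_zero.2, mul_zero]
          rw [slp, abs_div, abs_of_pos (hpos i x hx), div_le_iff₀ (hpos i x hx)]
          exact hc i x hx
        rw [intervalIntegral.integral_congr this, intervalIntegral.integral_zero, mul_zero]
      have hmem : Ico t1 (t1 + δ) ∈ 𝓝[>] t1 := by
        apply mem_of_superset (Ioo_mem_nhdsGT (by linarith : t1 < t1 + δ)) Ioo_subset_Ico_self
      refine mem_of_superset hmem (fun s hs => ?_)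
      have hs' : s ∈ Ioo (t1 - δ) (t1 + δ) := ⟨by linarith [hs.1], hs.2⟩
      have hFs : F s ≤ 0 := by
        rw [← hF0]
        exact hanti ⟨by linarith, by linarith⟩ hs' hs.1
      have hs0 : 0 < s := ht1p.trans_le hs.1
      have hnn : ∀ i, ∀ x ∈ Icc (0:ℝ) 1, 0 ≤ gg m (e i) (ux i s x) := fun i x hx =>
        mul_nonneg (hp s hs' i x hx).le (ph_nonneg _ _)
      intro i x hx
      have hi : ∫ x in (0:ℝ)..1, gg m (e i) (ux i s x) ≤ 0 := by
        have h3 : c i * ∫ x in (0:ℝ)..1, gg m (e i) (ux i s x) ≤ 0 := by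
          refine le_trans ?_ hFs
          exact Finset.single_le_sum
            (f := fun i => c i * ∫ x in (0:ℝ)..1, gg m (e i) (ux i s x))
            (fun j _ => mul_nonneg (h.cpos j).le
              (intervalIntegral.integral_nonneg zero_le_one (fun x hx => hnn j x hx)))
            (Finset.mem_univ i)
        by_contra hlt
        push Not at hlt
        have := mul_pos (h.cpos i) hlt
        linarith
      have hz : gg m (e i) (ux i s x) = 0 := by
        by_contra hne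
        have hlt : 0 < gg m (e i) (ux i s x) := lt_of_le_of_ne (hnn i x hx) (Ne.symm hne)
        have cux : ContinuousOn (ux i s) (Icc 0 1) := slice_cont (J := Ioi 0) hs0 (h.data i).cx
        have cI : ∀ c : ℂ, ContinuousOn (fun x => (inner ℝ c (ux i s x) : ℝ)) (Icc (0:ℝ) 1) :=
          fun c => continuousOn_const.inner (𝕜 := ℝ) cux
        have cg : ContinuousOn (fun x => gg m (e i) (ux i s x)) (Icc 0 1) :=
          (cI _).mul ((ph_cont m).comp_continuousOn ((cI _).div (cI _)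
            (fun x hx => (hp s hs' i x hx).ne')))
        have := intervalIntegral.integral_pos zero_lt_one cg
          (fun y hy => hnn i y (Ioc_subset_Icc_self hy)) ⟨x, hx, hlt⟩
        linarith
      have hpx := hp s hs' i x hx
      rw [gg, mul_eq_zero, or_iff_right hpx.ne', ph_eq_zero, slp, abs_div, abs_of_pos hpx,
        div_le_iff₀ hpx] at hz
      exact hz
  exact key ⟨hb, le_rfl⟩

lemma WFlow.exists_convDir (h : WFlow c u ux uxx ut vtx p Bd) :
    ∃ e : ι → ℂ, Dirs c ux vtx Bd e ∧ ConvDir ux e := by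
  obtain ⟨e, he, hE⟩ := h.exists_dirs
  refine ⟨e, he, fun m hm => ?_⟩
  obtain ⟨t, ht, hx⟩ := hE (m / (1 + m)) (by positivity) 1 one_pos
  refine ⟨t, by linarith, h.barrier he hm (by linarith) (fun i x hx' => ?_)⟩
  have hm1 : 0 < 1 + m := by linarith
  exact cone_of_close (by rw [div_mul_cancel₀ _ hm1.ne']) hm.le (he.norm i)
    (h.reg i t (by linarith) x hx') (hx i x hx').le

/-- The limit directions at a junction are not all perpendicular to a given vector. -/
lemma WFlow.nondeg_dirs (h : WFlow c u ux uxx ut vtx p Bd) {e : ι → ℂ} (he : Dirs c ux vtx Bd e)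
    {w : W} (hw : w ∉ Bd) {v : ℂ} (hv : v ≠ 0) : ∃ d, vtx d = w ∧ inner ℝ v (EE e d) ≠ 0 := by
  obtain ⟨d0, hd0, -⟩ := h.nondeg w hw 1 one_ne_zero
  have cj : ∀ z : ℂ, ‖z‖ = 1 → z * (starRingEnd ℂ) z = 1 := fun z hz => by
    rw [Complex.mul_conj, Complex.normSq_eq_norm_sq, hz]; simp
  have nT := fun d => norm_TT h.reg (t := 1) one_pos d
  have nE := fun d => norm_EE he.norm d
  have hE0 : EE e d0 ≠ 0 := by rw [← norm_ne_zero_iff, nE]; exact one_ne_zero
  have hT0 : TT ux 1 d0 ≠ 0 := by rw [← norm_ne_zero_iff, nT]; exact one_ne_zero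
  obtain ⟨d, hd, hne⟩ := h.nondeg w hw (v * (TT ux 1 d0 * (starRingEnd ℂ) (EE e d0)))
    (mul_ne_zero hv (mul_ne_zero hT0 ((map_ne_zero _).2 hE0)))
  refine ⟨d, hd, fun h0 => hne ?_⟩
  have h1 := he.ang d d0 (hd.trans hd0.symm) (by rw [hd]; exact hw) 1 one_pos
  have h2 := rot_of_ang (nT d0) (nE d) h1
  have h3 : TT ux 1 d = EE e d * (TT ux 1 d0 * (starRingEnd ℂ) (EE e d0)) := by
    rw [← h2]
    linear_combination (-(TT ux 1 d)) * cj _ (nE d)
  rw [h3, Complex.inner]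
  rw [Complex.inner] at h0
  rw [map_mul]
  set ρ := TT ux 1 d0 * (starRingEnd ℂ) (EE e d0) with hρ
  have hρ1 : ρ * (starRingEnd ℂ) ρ = 1 := by
    apply cj
    rw [hρ, norm_mul, RCLike.norm_conj, nT, nE, mul_one]
  have h4 : EE e d * ρ * ((starRingEnd ℂ) v * (starRingEnd ℂ) ρ) = EE e d * (starRingEnd ℂ) v := by
    linear_combination (EE e d * (starRingEnd ℂ) v) * hρ1
  rw [h4]
  exact h0

/-- One of the directions at a junction makes a definite acute angle with a given direction. -/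
lemma WFlow.exists_kappa (h : WFlow c u ux uxx ut vtx p Bd) {e : ι → ℂ}
    (he : Dirs c ux vtx Bd e) : ∃ κ > 0, ∀ w ∉ Bd, ∀ v : ℂ, ‖v‖ = 1 →
      ∃ d, vtx d = w ∧ κ ≤ inner ℝ v (EE e d) := by
  classical
  have key : ∀ w : W, ∃ κ > 0, w ∉ Bd → ∀ v : ℂ, ‖v‖ = 1 →
      ∃ d, vtx d = w ∧ κ ≤ inner ℝ v (EE e d) := by
    intro w
    by_cases hw : w ∈ Bd
    · exact ⟨1, one_pos, fun hh => absurd hw hh⟩
    obtain ⟨d0, hd0, -⟩ := h.nondeg w hw 1 one_ne_zero
    set S := Finset.univ.filter (fun d => vtx d = w) with hS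
    have hSne : S.Nonempty := ⟨d0, by simp [hS, hd0]⟩
    set F : ℂ → ℝ := fun v => S.sup' hSne (fun d => inner ℝ v (EE e d)) with hF
    have hFc : Continuous F := by
      refine Continuous.finset_sup'_apply hSne (fun d _ => ?_)
      fun_prop
    obtain ⟨v0, hv0, hmin⟩ := (isCompact_sphere (0:ℂ) 1).exists_isMinOn
      ⟨1, by simp⟩ hFc.continuousOn
    have hv0' : ‖v0‖ = 1 := by simpa using hv0
    have hv0ne : v0 ≠ 0 := by rw [← norm_ne_zero_iff, hv0']; exact one_ne_zero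
    have hpos : 0 < F v0 := by
      by_contra hneg
      push Not at hneg
      have h1 : ∀ d ∈ S, inner ℝ v0 (EE e d) ≤ 0 := fun d hd =>
        (Finset.le_sup' (fun d => (inner ℝ v0 (EE e d) : ℝ)) hd).trans hneg
      have h2 : ∑ d ∈ S, c d.1 * inner ℝ v0 (EE e d) = 0 := by
        have h3 := congrArg (fun z => (inner ℝ v0 z : ℝ)) (he.bal w hw)
        simp only [inner_zero_right, inner_sum, real_inner_smul_right] at h3
        exact h3
      have h3 : ∀ d ∈ S, c d.1 * inner ℝ v0 (EE e d) = 0 := by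
        have h4 := (Finset.sum_eq_zero_iff_of_nonpos (fun d hd =>
          mul_nonpos_of_nonneg_of_nonpos (h.cpos d.1).le (h1 d hd))).1 h2
        exact h4
      obtain ⟨d, hd, hne⟩ := h.nondeg_dirs he hw hv0ne
      apply hne
      rcases mul_eq_zero.1 (h3 d (by simp [hS, hd])) with h5 | h5
      · exact absurd h5 (h.cpos d.1).ne'
      · exact h5
    refine ⟨F v0, hpos, fun _ v hv => ?_⟩
    obtain ⟨d, hd, hd2⟩ := Finset.exists_mem_eq_sup' hSne (fun d => (inner ℝ v (EE e d) : ℝ))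
    refine ⟨d, (Finset.mem_filter.1 hd).2, ?_⟩
    rw [← hd2]
    exact hmin (by simpa using hv)
  choose κ hκ hκ2 using key
  rcases isEmpty_or_nonempty W with hW | hW
  · exact ⟨1, one_pos, fun w => (hW.false w).elim⟩
  · obtain ⟨w0, hw0⟩ := Finite.exists_min κ
    refine ⟨κ w0, hκ w0, fun w hw v hv => ?_⟩
    obtain ⟨d, hd, hd2⟩ := hκ2 w hw v hv
    exact ⟨d, hd, (hw0 w).trans hd2⟩

end Pool.Agent.KS6_83.NT
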