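import Pool.Agent.KS6_83.NT.B

/-!
Curvature flow of networks with surface tensions: convergence of the vertices.
-/

set_option autoImplicit false

open Set Filter Topology MeasureTheory

namespace Pool.Agent.KS6_83.NT

open Pool.Agent.R732.Net

variable {ι W : Type*} [Fintype ι] [Fintype W] [DecidableEq W] {c : ι → ℝ}
  {u ux uxx ut : ι → ℝ → ℝ → ℂ} {vtx : ι × Bool → W} {p : W → ℝ → ℂ} {Bd : Set W}

lemma WFlow.ends_diff (h : WFlow c u ux uxx ut vtx p Bd) {t : ℝ} (ht : 0 < t) (d : ι × Bool) :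
    p (vtx (d.1, !d.2)) t - p (vtx d) t = sgn d.2 • (u d.1 t 1 - u d.1 t 0) := by
  rw [← h.pos (d.1, !d.2) t ht, ← h.pos d t ht]
  rcases d with ⟨i, b⟩
  cases b
  · simp [par, sgn]
  · simp [par, sgn]

lemma WFlow.cu (h : WFlow c u ux uxx ut vtx p Bd) {t : ℝ} (ht : 0 < t) (i : ι) :
    ContinuousOn (u i t) (Icc 0 1) := fun x hx => ((h.data i).hx t ht x hx).continuousWithinAt

lemma WFlow.cux (h : WFlow c u ux uxx ut vtx p Bd) {t : ℝ} (ht : 0 < t) (i : ι) :
    ContinuousOn (ux i t) (Icc 0 1) := slice_cont (J := Ioi 0) ht (h.data i).cx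

lemma WFlow.ftcI (h : WFlow c u ux uxx ut vtx p Bd) {t : ℝ} (ht : 0 < t) (i : ι) (z : ℂ) :
    ∫ x in (0:ℝ)..1, inner ℝ z (ux i t x) = inner ℝ z (u i t 1 - u i t 0) := by
  have hd : ∀ x ∈ Icc (0:ℝ) 1, HasDerivWithinAt (fun x => inner ℝ z (u i t x))
      (inner ℝ z (ux i t x)) (Icc 0 1) x := by
    intro x hx
    have := (hasDerivWithinAt_const x (Icc 0 1) z).inner (𝕜 := ℝ) ((h.data i).hx t ht x hx)
    refine this.congr_deriv ?_
    simp
  rw [ftc hd (continuousOn_const.inner (𝕜 := ℝ) (h.cux ht i)), inner_sub_right]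

lemma WFlow.dist_le (h : WFlow c u ux uxx ut vtx p Bd) {t : ℝ} (ht : 0 < t) (i : ι) {x : ℝ}
    (hx : x ∈ Icc (0:ℝ) 1) :
    ‖u i t x - u i t 0‖ ≤ ∫ x in (0:ℝ)..1, ‖ux i t x‖ := by
  have h1 : ∫ y in (0:ℝ)..x, ux i t y = u i t x - u i t 0 := by
    apply intervalIntegral.integral_eq_sub_of_hasDerivAt_of_le hx.1
    · exact (h.cu ht i).mono (Icc_subset_Icc_right hx.2)
    · intro y hy
      exact ((h.data i).hx t ht y ⟨hy.1.le, hy.2.le.trans hx.2⟩).hasDerivAt
        (Icc_mem_nhds hy.1 (hy.2.trans_le hx.2))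
    · apply ContinuousOn.intervalIntegrable
      rw [uIcc_of_le hx.1]
      exact (h.cux ht i).mono (Icc_subset_Icc_right hx.2)
  rw [← h1]
  refine (intervalIntegral.norm_integral_le_integral_norm hx.1).trans ?_
  apply intervalIntegral.integral_mono_interval le_rfl hx.1 hx.2 _
    (intervalIntegrable_of_cont (h.cux ht i).norm)
  exact Eventually.of_forall (fun y => norm_nonneg _)

/-- For every set of junctions and every direction `v`, some curve leaves the set with a direction
at an acute angle with `v`. -/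
lemma WFlow.exit (h : WFlow c u ux uxx ut vtx p Bd) {e : ι → ℂ} (he : Dirs c ux vtx Bd e)
    (hc : ConvDir ux e) {C : Finset W} (hC : C.Nonempty) (hB : ∀ w ∈ C, w ∉ Bd) {v : ℂ}
    (hv : ‖v‖ = 1) :
    ∃ d : ι × Bool, vtx d ∈ C ∧ vtx (d.1, !d.2) ∉ C ∧ 0 < inner ℝ v (sgn d.2 • e d.1) := by
  classical
  obtain ⟨κ, hκ, hκ2⟩ := h.exists_kappa he
  obtain ⟨T, hT, hcone⟩ := hc (κ / 4) (by positivity)
  obtain ⟨z, hz, hmax⟩ := C.exists_max_image (fun w => inner ℝ v (p w T)) hC
  obtain ⟨d, hd, hd2⟩ := hκ2 z (hB z hz) v hv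
  rw [EE] at hd2
  refine ⟨d, hd ▸ hz, fun hmem => ?_, hκ.trans_le hd2⟩
  have h1 := hmax _ hmem
  have h2 : inner ℝ v (p (vtx (d.1, !d.2)) T - p (vtx d) T) =
      ∫ x in (0:ℝ)..1, inner ℝ (sgn d.2 • v) (ux d.1 T x) := by
    rw [h.ends_diff hT, h.ftcI hT, real_inner_smul_left, real_inner_smul_right]
  have h3 : 0 < ∫ x in (0:ℝ)..1, inner ℝ (sgn d.2 • v) (ux d.1 T x) := by
    have hp : ∀ x ∈ Icc (0:ℝ) 1, 0 < inner ℝ (sgn d.2 • v) (ux d.1 T x) := by
      intro x hx
      have hne := h.reg d.1 T hT x hx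
      have h4 := close_of_cone (he.norm d.1) hne (by positivity) (hcone T le_rfl d.1 x hx)
      have h5 : inner ℝ (sgn d.2 • v) (un (ux d.1 T x)) =
          inner ℝ v (sgn d.2 • e d.1) + inner ℝ (sgn d.2 • v) (un (ux d.1 T x) - e d.1) := by
        rw [inner_sub_right, real_inner_smul_left, real_inner_smul_left, real_inner_smul_right]
        ring
      have h6 : |inner ℝ (sgn d.2 • v) (un (ux d.1 T x) - e d.1)| ≤ κ / 2 := by
        refine (abs_real_inner_le_norm _ _).trans ?_
        rw [norm_sgn_smul, hv, one_mul]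
        linarith
      have h7 := (abs_le.1 h6).1
      have h8 : 0 < inner ℝ (sgn d.2 • v) (un (ux d.1 T x)) := by rw [h5]; linarith
      rw [← norm_smul_un hne, real_inner_smul_right]
      exact mul_pos (norm_pos_iff.2 hne) h8
    exact intervalIntegral.integral_pos zero_lt_one
      (continuousOn_const.inner (𝕜 := ℝ) (h.cux hT d.1))
      (fun x hx => (hp x (Ioc_subset_Icc_self hx)).le) ⟨0, ⟨le_rfl, zero_le_one⟩, hp 0 ⟨le_rfl, zero_le_one⟩⟩
  rw [← h2, inner_sub_right, hd] at h3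
  linarith

lemma WFlow.bounded (h : WFlow c u ux uxx ut vtx p Bd) {e : ι → ℂ} (he : Dirs c ux vtx Bd e)
    (hc : ConvDir ux e) : ∃ R, ∀ w, ∀ t ≥ 1, ‖p w t‖ ≤ R := by
  classical
  have key : ∀ w, ∃ R, ∀ t ≥ 1, ‖p w t‖ ≤ R := by
    by_contra hcon
    push Not at hcon
    set C : Finset W := Finset.univ.filter (fun w => ¬ ∃ R, ∀ t ≥ 1, ‖p w t‖ ≤ R) with hC
    have hCne : C.Nonempty := by
      obtain ⟨w, hw⟩ := hcon
      refine ⟨w, ?_⟩
      simp only [hC, Finset.mem_filter, Finset.mem_univ, true_and, not_exists]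
      intro R hR
      obtain ⟨t, ht1, ht2⟩ := hw R
      exact absurd (hR t ht1) (not_le.2 ht2)
    have hCB : ∀ w ∈ C, w ∉ Bd := by
      intro w hw hB
      refine (Finset.mem_filter.1 hw).2 ⟨‖p w 1‖, fun t ht => ?_⟩
      rw [h.fix w hB t (by linarith)]
    obtain ⟨d, hd1, hd2, -⟩ := h.exit he hc hCne hCB (v := 1) (by simp)
    have hd2' : ∃ R, ∀ t ≥ 1, ‖p (vtx (d.1, !d.2)) t‖ ≤ R := by
      by_contra hh
      exact hd2 (Finset.mem_filter.2 ⟨Finset.mem_univ _, hh⟩)
    obtain ⟨R, hR⟩ := hd2'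
    refine (Finset.mem_filter.1 hd1).2 ⟨R + WFlow.LB c ux, fun t ht => ?_⟩
    have ht0 : 0 < t := by linarith
    have h1 := h.ends_diff ht0 d
    have h2 : ‖p (vtx (d.1, !d.2)) t - p (vtx d) t‖ ≤ WFlow.LB c ux := by
      rw [h1, norm_smul]
      have : ‖sgn d.2‖ = 1 := by
        rcases d with ⟨i, b⟩
        cases b <;> simp [sgn]
      rw [this, one_mul]
      exact (h.dist_le ht0 d.1 ⟨zero_le_one, le_rfl⟩).trans (h.len_le ht d.1)
    calc ‖p (vtx d) t‖ = ‖p (vtx (d.1, !d.2)) t - (p (vtx (d.1, !d.2)) t - p (vtx d) t)‖ := by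
          congr 1; ring
      _ ≤ _ := norm_sub_le _ _
      _ ≤ _ := add_le_add (hR t ht) h2
  choose R hR using key
  refine ⟨∑ w, |R w|, fun w t ht => (hR w t ht).trans ((le_abs_self _).trans ?_)⟩
  exact Finset.single_le_sum (f := fun w => |R w|) (fun _ _ => abs_nonneg _) (Finset.mem_univ w)

lemma WFlow.area_deriv (h : WFlow c u ux uxx ut vtx p Bd) {e : ι → ℂ} (he : Dirs c ux vtx Bd e)
    {φ : ι → ℝ} (hφ : Circ vtx Bd φ) {t : ℝ} (ht : 0 < t)
    (hpos : ∀ i, ∀ x ∈ Icc (0:ℝ) 1, 0 < inner ℝ (e i) (ux i t x)) :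
    HasDerivAt (Area u ux φ) 0 t := by
  have h1 : HasDerivAt (Area u ux φ) (∑ i, φ i * (inner ℝ (Complex.I * u i t 1) (ut i t 1)
      - inner ℝ (Complex.I * u i t 0) (ut i t 0)
        - 2 * ∫ x in (0:ℝ)..1, kap (ux i t x) (uxx i t x) * ‖ux i t x‖)) t :=
    HasDerivAt.fun_sum (u := Finset.univ) (fun i _ =>
      (Pool.Agent.R732.Net.area_deriv (h.data i) (h.reg i) (h.mot i) ht).const_mul (φ i))
  refine h1.congr_deriv ?_
  have h2 := h.boundary_sum ht (fun d => φ d.1 • (Complex.I * u d.1 t (par d.2))) (fun w hw => ?_)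
  · have h3 : ∑ i, φ i * ((Real.arctan (slp (e i) (ux i t 1))) -
        Real.arctan (slp (e i) (ux i t 0))) = 0 := by
      have h4 := sum_ends vtx (fun d => φ d.1 * Real.arctan (slp (e d.1) (ux d.1 t (par d.2))))
        (fun w => ?_)
      · simp only [par, cond_true, cond_false] at h4
        exact (Finset.sum_congr rfl (fun i _ => by ring)).trans h4
      · by_cases hw : w ∈ Bd
        · refine Finset.sum_eq_zero (fun d hd => ?_)
          have hd' := (Finset.mem_filter.1 hd).2
          simp only [hφ.zero d (by rw [hd']; exact hw), zero_mul, mul_zero]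
        · obtain ⟨y, hy⟩ := h.slopes_eq he ht hw
          have h5 : ∀ d ∈ Finset.univ.filter (fun d => vtx d = w),
              sgn d.2 * (φ d.1 * Real.arctan (slp (e d.1) (ux d.1 t (par d.2)))) =
              (sgn d.2 * φ d.1) * Real.arctan y := by
            intro d hd
            rw [hy d (Finset.mem_filter.1 hd).2]; ring
          rw [Finset.sum_congr rfl h5, ← Finset.sum_mul, hφ.bal w hw, zero_mul]
    simp only [par, cond_true, cond_false, real_inner_smul_left] at h2
    have h6 : ∀ i, φ i * (inner ℝ (Complex.I * u i t 1) (ut i t 1)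
        - inner ℝ (Complex.I * u i t 0) (ut i t 0)
        - 2 * ∫ x in (0:ℝ)..1, kap (ux i t x) (uxx i t x) * ‖ux i t x‖) =
        (φ i * inner ℝ (Complex.I * u i t 1) (ut i t 1)
          - φ i * inner ℝ (Complex.I * u i t 0) (ut i t 0)) -
        2 * (φ i * ((Real.arctan (slp (e i) (ux i t 1))) -
        Real.arctan (slp (e i) (ux i t 0)))) := by
      intro i
      rw [total_curvature (h.data i) (he.norm i) ht (hpos i)]
      ring
    rw [Finset.sum_congr rfl (fun i _ => h6 i), Finset.sum_sub_distrib, h2, ← Finset.mul_sum, h3]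
    simp
  · have h7 : ∀ d ∈ Finset.univ.filter (fun d => vtx d = w),
        sgn d.2 • (φ d.1 • (Complex.I * u d.1 t (par d.2))) =
        (((sgn d.2 * φ d.1 : ℝ)) : ℂ) * (Complex.I * p w t) := by
      intro d hd
      rw [h.pos d t ht, (Finset.mem_filter.1 hd).2]
      simp only [Complex.real_smul, Complex.ofReal_mul]
      ring
    rw [Finset.sum_congr rfl h7, ← Finset.sum_mul, ← Complex.ofReal_sum, hφ.bal w hw]
    simp

/-- Approximation of the area under a curve with small slopes. -/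
lemma WFlow.area_approx (h : WFlow c u ux uxx ut vtx p Bd) {e : ι → ℂ} (he : Dirs c ux vtx Bd e)
    {m t : ℝ} (hm : 0 < m) (ht : 1 ≤ t) (hcone : Cone ux e m t) (i : ι) :
    |(∫ x in (0:ℝ)..1, inner ℝ (Complex.I * u i t x) (ux i t x)) -
      inner ℝ (Complex.I * u i t 0) (u i t 1)| ≤ 2 * m * WFlow.LB c ux ^ 2 := by
  have ht0 : 0 < t := by linarith
  have cu := h.cu ht0 i
  have cux := h.cux ht0 i
  have hL : 0 ≤ WFlow.LB c ux := h.LB_nonneg
  have crs : ∀ z w : ℂ, inner ℝ (Complex.I * z) w = inner ℝ (e i) z * inner ℝ (Complex.I * e i) w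
      - inner ℝ (Complex.I * e i) z * inner ℝ (e i) w := by
    intro z w
    have h1 := norm_sq_eq (e i)
    rw [he.norm i] at h1
    simp only [inner_eq, Complex.mul_re, Complex.mul_im, Complex.I_re, Complex.I_im]
    linear_combination (z.re * w.im - z.im * w.re) * h1
  have c1 : ContinuousOn (fun x => (inner ℝ (Complex.I * u i t x) (ux i t x) : ℝ)) (Icc 0 1) := by
    fun_prop
  have c2 : ContinuousOn (fun x => (inner ℝ (Complex.I * u i t 0) (ux i t x) : ℝ)) (Icc 0 1) := by
    fun_prop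
  have e1 : (∫ x in (0:ℝ)..1, inner ℝ (Complex.I * u i t x) (ux i t x)) -
      inner ℝ (Complex.I * u i t 0) (u i t 1) =
      ∫ x in (0:ℝ)..1, inner ℝ (Complex.I * (u i t x - u i t 0)) (ux i t x) := by
    have h2 : inner ℝ (Complex.I * u i t 0) (u i t 1) =
        ∫ x in (0:ℝ)..1, inner ℝ (Complex.I * u i t 0) (ux i t x) := by
      rw [h.ftcI ht0 i, inner_sub_right]
      have : inner ℝ (Complex.I * u i t 0) (u i t 0) = 0 := inner_I_self _
      rw [this, sub_zero]
    rw [h2, ← intervalIntegral.integral_sub (intervalIntegrable_of_cont c1)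
      (intervalIntegrable_of_cont c2)]
    refine intervalIntegral.integral_congr (fun x _ => ?_)
    simp only [mul_sub, inner_sub_left]
  rw [e1]
  -- partial integrals stay in the cone
  have hpart : ∀ c : ℂ, ∀ x ∈ Icc (0:ℝ) 1, inner ℝ c (u i t x - u i t 0) =
      ∫ y in (0:ℝ)..x, inner ℝ c (ux i t y) := by
    intro c x hx
    rw [inner_sub_right]
    symm
    apply intervalIntegral.integral_eq_sub_of_hasDerivAt_of_le hx.1
    · exact (continuousOn_const.inner (𝕜 := ℝ) cu).mono (Icc_subset_Icc_right hx.2)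
    · intro y hy
      have h3 := ((h.data i).hx t ht0 y ⟨hy.1.le, hy.2.le.trans hx.2⟩).hasDerivAt
        (Icc_mem_nhds hy.1 (hy.2.trans_le hx.2))
      have h4 := (hasDerivAt_const y c).inner (𝕜 := ℝ) h3
      refine h4.congr_deriv ?_
      simp
    · apply ContinuousOn.intervalIntegrable
      rw [uIcc_of_le hx.1]
      exact (continuousOn_const.inner (𝕜 := ℝ) cux).mono (Icc_subset_Icc_right hx.2)
  have hbd : ∀ x ∈ Icc (0:ℝ) 1, |inner ℝ (Complex.I * (u i t x - u i t 0)) (ux i t x)| ≤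
      2 * m * WFlow.LB c ux * ‖ux i t x‖ := by
    intro x hx
    have ii : ∀ c : ℂ, IntervalIntegrable (fun y => (inner ℝ c (ux i t y) : ℝ)) volume 0 x := by
      intro c
      apply ContinuousOn.intervalIntegrable
      rw [uIcc_of_le hx.1]
      exact (continuousOn_const.inner (𝕜 := ℝ) cux).mono (Icc_subset_Icc_right hx.2)
    have h5 : |inner ℝ (Complex.I * e i) (u i t x - u i t 0)| ≤
        m * inner ℝ (e i) (u i t x - u i t 0) := by
      rw [hpart _ x hx, hpart _ x hx, ← intervalIntegral.integral_const_mul]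
      refine (intervalIntegral.abs_integral_le_integral_abs hx.1).trans ?_
      refine intervalIntegral.integral_mono_on hx.1 (ii _).abs ((ii _).const_mul _)
        (fun y hy => hcone i y ⟨hy.1, hy.2.trans hx.2⟩)
    have h6 : inner ℝ (e i) (u i t x - u i t 0) ≤ WFlow.LB c ux := by
      refine (real_inner_le_norm _ _).trans ?_
      rw [he.norm, one_mul]
      exact (h.dist_le ht0 i hx).trans (h.len_le ht i)
    have h6' : 0 ≤ inner ℝ (e i) (u i t x - u i t 0) := by
      have := (abs_nonneg _).trans h5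
      nlinarith
    have h7 := hcone i x hx
    have h8 : inner ℝ (e i) (ux i t x) ≤ ‖ux i t x‖ := by
      refine (real_inner_le_norm _ _).trans ?_
      rw [he.norm, one_mul]
    have h8' : 0 < inner ℝ (e i) (ux i t x) := pos_of_cone (he.norm i) (h.reg i t ht0 x hx) hm h7
    rw [crs]
    set α := inner ℝ (e i) (u i t x - u i t 0)
    set β := inner ℝ (Complex.I * e i) (u i t x - u i t 0)
    set a := inner ℝ (e i) (ux i t x)
    set b := inner ℝ (Complex.I * e i) (ux i t x)
    calc |α * b - β * a| ≤ |α * b| + |β * a| := abs_sub _ _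
      _ = α * |b| + |β| * a := by rw [abs_mul, abs_mul, abs_of_nonneg h6', abs_of_pos h8']
      _ ≤ α * (m * a) + (m * α) * a := add_le_add (mul_le_mul_of_nonneg_left h7 h6')
          (mul_le_mul_of_nonneg_right h5 h8'.le)
      _ = 2 * m * (α * a) := by ring
      _ ≤ 2 * m * (WFlow.LB c ux * ‖ux i t x‖) := by
          apply mul_le_mul_of_nonneg_left _ (by positivity)
          exact mul_le_mul h6 h8 h8'.le hL
      _ = _ := by ring
  have c3 : ContinuousOn (fun x => (inner ℝ (Complex.I * (u i t x - u i t 0)) (ux i t x) : ℝ))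
    (Icc 0 1) := by fun_prop
  calc |∫ x in (0:ℝ)..1, inner ℝ (Complex.I * (u i t x - u i t 0)) (ux i t x)|
      ≤ ∫ x in (0:ℝ)..1, |inner ℝ (Complex.I * (u i t x - u i t 0)) (ux i t x)| :=
        intervalIntegral.abs_integral_le_integral_abs zero_le_one
    _ ≤ ∫ x in (0:ℝ)..1, 2 * m * WFlow.LB c ux * ‖ux i t x‖ :=
        intervalIntegral.integral_mono_on zero_le_one (intervalIntegrable_of_cont c3.abs)
          ((intervalIntegrable_of_cont cux.norm).const_mul _) hbd
    _ = 2 * m * WFlow.LB c ux * ∫ x in (0:ℝ)..1, ‖ux i t x‖ :=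
        intervalIntegral.integral_const_mul _ _
    _ ≤ 2 * m * WFlow.LB c ux * WFlow.LB c ux :=
        mul_le_mul_of_nonneg_left (h.len_le ht i) (by positivity)
    _ = _ := by ring

lemma WFlow.chord (h : WFlow c u ux uxx ut vtx p Bd) {e : ι → ℂ} (he : Dirs c ux vtx Bd e)
    {m t : ℝ} (hm : 0 < m) (ht : 1 ≤ t) (hcone : Cone ux e m t) (i : ι) :
    |inner ℝ (Complex.I * e i) (p (vtx (i, true)) t - p (vtx (i, false)) t)| ≤
      m * WFlow.LB c ux ∧
    0 ≤ inner ℝ (e i) (p (vtx (i, true)) t - p (vtx (i, false)) t) := by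
  have ht0 : 0 < t := by linarith
  have h0 := h.ends_diff ht0 (i, false)
  simp only [Bool.not_false, sgn, cond_false, one_smul] at h0
  have cux := h.cux ht0 i
  have cI : ∀ c : ℂ, ContinuousOn (fun x => (inner ℝ c (ux i t x) : ℝ)) (Icc (0:ℝ) 1) :=
    fun c => continuousOn_const.inner (𝕜 := ℝ) cux
  have hpos : ∀ x ∈ Icc (0:ℝ) 1, 0 < inner ℝ (e i) (ux i t x) := fun x hx =>
    pos_of_cone (he.norm i) (h.reg i t ht0 x hx) hm (hcone i x hx)
  rw [h0, ← h.ftcI ht0 i, ← h.ftcI ht0 i]
  constructor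
  · calc |∫ x in (0:ℝ)..1, inner ℝ (Complex.I * e i) (ux i t x)|
        ≤ ∫ x in (0:ℝ)..1, |inner ℝ (Complex.I * e i) (ux i t x)| :=
          intervalIntegral.abs_integral_le_integral_abs zero_le_one
      _ ≤ ∫ x in (0:ℝ)..1, m * ‖ux i t x‖ := by
          refine intervalIntegral.integral_mono_on zero_le_one
            (intervalIntegrable_of_cont (cI _).abs)
            ((intervalIntegrable_of_cont cux.norm).const_mul _) (fun x hx => ?_)
          refine (hcone i x hx).trans (mul_le_mul_of_nonneg_left ?_ hm.le)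
          refine (real_inner_le_norm _ _).trans ?_
          rw [he.norm, one_mul]
      _ = m * ∫ x in (0:ℝ)..1, ‖ux i t x‖ := intervalIntegral.integral_const_mul _ _
      _ ≤ _ := mul_le_mul_of_nonneg_left (h.len_le ht i) hm.le
  · exact intervalIntegral.integral_nonneg zero_le_one (fun x hx => (hpos x hx).le)

lemma WFlow.area_const (h : WFlow c u ux uxx ut vtx p Bd) {e : ι → ℂ} (he : Dirs c ux vtx Bd e)
    (hc : ConvDir ux e) {φ : ι → ℝ} (hφ : Circ vtx Bd φ) :
    ∃ c, Tendsto (fun t => AreaL vtx φ (fun w => p w t)) atTop (𝓝 c) := by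
  obtain ⟨T, hT, hcone⟩ := hc 1 one_pos
  have hconst : ∀ t ≥ T, Area u ux φ t = Area u ux φ T := by
    intro t ht
    have h1 := Convex.norm_image_sub_le_of_norm_hasDerivWithin_le (f := Area u ux φ)
      (f' := fun _ => (0:ℝ)) (s := Ici T) (C := 0) (x := T) (y := t) (fun s hs => ?_)
      (fun s hs => by simp) (convex_Ici T) (by simp) ht
    · rw [zero_mul] at h1
      exact sub_eq_zero.1 (norm_eq_zero.1 (le_antisymm h1 (norm_nonneg _)))
    · refine (h.area_deriv he hφ (hT.trans_le hs) (fun i x hx => ?_)).hasDerivWithinAt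
      exact pos_of_cone (he.norm i) (h.reg i s (hT.trans_le hs) x hx) one_pos (hcone s hs i x hx)
  refine ⟨Area u ux φ T, ?_⟩
  rw [Metric.tendsto_atTop']
  intro ε hε
  have hL := h.LB_nonneg
  have hS : 0 ≤ ∑ i, |φ i| := Finset.sum_nonneg (fun _ _ => abs_nonneg _)
  set B : ℝ := 2 * WFlow.LB c ux ^ 2 * (∑ i, |φ i|) + 1 with hB
  have hBpos : 0 < B := by positivity
  obtain ⟨T2, hT2, hcone2⟩ := hc (ε / (2 * B)) (by positivity)
  refine ⟨max (max T T2) 1, fun t ht => ?_⟩
  have ht1 : T < t := lt_of_le_of_lt ((le_max_left _ _).trans (le_max_left _ _)) ht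
  have ht2 : T2 < t := lt_of_le_of_lt ((le_max_right _ _).trans (le_max_left _ _)) ht
  have ht3 : 1 < t := lt_of_le_of_lt (le_max_right _ _) ht
  have ht0 : 0 < t := by linarith
  rw [← hconst t ht1.le, Real.dist_eq, AreaL, Area, ← Finset.sum_sub_distrib]
  calc |∑ i, (φ i * inner ℝ (Complex.I * p (vtx (i, false)) t) (p (vtx (i, true)) t) -
        φ i * ∫ x in (0:ℝ)..1, inner ℝ (Complex.I * u i t x) (ux i t x))|
      ≤ ∑ i, |φ i| * (2 * (ε / (2 * B)) * WFlow.LB c ux ^ 2) := by
        refine (Finset.abs_sum_le_sum_abs _ _).trans (Finset.sum_le_sum (fun i _ => ?_))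
        rw [← mul_sub, abs_mul]
        apply mul_le_mul_of_nonneg_left _ (abs_nonneg _)
        rw [abs_sub_comm, ← h.pos (i, false) t ht0, ← h.pos (i, true) t ht0]
        exact h.area_approx he (by positivity) ht3.le (hcone2 t ht2.le) i
    _ = (2 * WFlow.LB c ux ^ 2 * ∑ i, |φ i|) * (ε / (2 * B)) := by
        rw [← Finset.sum_mul]; ring
    _ ≤ B * (ε / (2 * B)) := by
        apply mul_le_mul_of_nonneg_right _ (by positivity)
        rw [hB]; linarith
    _ = ε / 2 := by field_simp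
    _ < ε := by linarith

lemma WFlow.lim_of_tendsto (h : WFlow c u ux uxx ut vtx p Bd) {e : ι → ℂ} (he : Dirs c ux vtx Bd e)
    (hc : ConvDir ux e) {F : Filter ℝ} [F.NeBot] (hF : F ≤ atTop) {y : W → ℂ}
    (hy : Tendsto (fun t w => p w t) F (𝓝 y)) : Lim vtx Bd p e y := by
  have hw : ∀ w, Tendsto (fun t => p w t) F (𝓝 (y w)) := fun w => (tendsto_pi_nhds.1 hy) w
  have hL := h.LB_nonneg
  refine ⟨fun i => ?_, fun i => ?_, fun w hwB => ?_⟩
  · have h1 : Tendsto (fun t => (inner ℝ (Complex.I * e i)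
        (p (vtx (i, true)) t - p (vtx (i, false)) t) : ℝ)) F
        (𝓝 (inner ℝ (Complex.I * e i) (y (vtx (i, true)) - y (vtx (i, false))))) :=
      tendsto_const_nhds.inner (𝕜 := ℝ) ((hw _).sub (hw _))
    have h2 : Tendsto (fun t => (inner ℝ (Complex.I * e i)
        (p (vtx (i, true)) t - p (vtx (i, false)) t) : ℝ)) atTop (𝓝 0) := by
      rw [Metric.tendsto_atTop']
      intro ε hε
      obtain ⟨T, hT, hcone⟩ := hc (ε / (WFlow.LB c ux + 1)) (by positivity)
      refine ⟨max T 1, fun t ht => ?_⟩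
      have ht1 : T < t := lt_of_le_of_lt (le_max_left _ _) ht
      have ht2 : 1 < t := lt_of_le_of_lt (le_max_right _ _) ht
      rw [Real.dist_eq, sub_zero]
      refine (h.chord he (by positivity) ht2.le (hcone t ht1.le) i).1.trans_lt ?_
      rw [div_mul_eq_mul_div, div_lt_iff₀ (by positivity)]
      nlinarith
    exact tendsto_nhds_unique h1 (h2.mono_left hF)
  · have h1 : Tendsto (fun t => (inner ℝ (e i)
        (p (vtx (i, true)) t - p (vtx (i, false)) t) : ℝ)) F
        (𝓝 (inner ℝ (e i) (y (vtx (i, true)) - y (vtx (i, false))))) :=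
      tendsto_const_nhds.inner (𝕜 := ℝ) ((hw _).sub (hw _))
    obtain ⟨T, hT, hcone⟩ := hc 1 one_pos
    refine ge_of_tendsto h1 (hF ?_)
    filter_upwards [eventually_ge_atTop (max T 1)] with t ht
    exact (h.chord he one_pos ((le_max_right _ _).trans ht) (hcone t ((le_max_left _ _).trans ht)) i).2
  · have h1 : Tendsto (fun t => p w t) F (𝓝 (p w 1)) := by
      refine tendsto_const_nhds.congr' (hF ?_)
      filter_upwards [eventually_gt_atTop 0] with t ht
      exact (h.fix w hwB t ht).symm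
    exact tendsto_nhds_unique (hw w) h1

lemma WFlow.unique (h : WFlow c u ux uxx ut vtx p Bd) {e : ι → ℂ} (he : Dirs c ux vtx Bd e)
    (hc : ConvDir ux e) {F F' : Filter ℝ} [F.NeBot] [F'.NeBot] (hF : F ≤ atTop) (hF' : F' ≤ atTop)
    {y y' : W → ℂ} (hy : Tendsto (fun t w => p w t) F (𝓝 y))
    (hy' : Tendsto (fun t w => p w t) F' (𝓝 y')) : y = y' := by
  classical
  have L := h.lim_of_tendsto he hc hF hy
  have L' := h.lim_of_tendsto he hc hF' hy'
  set d : W → ℂ := fun w => y' w - y w with hd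
  set φ : ι → ℝ := fun i => inner ℝ (Complex.I * e i) (d (vtx (i, false))) with hφdef
  have hφt : ∀ i, φ i = inner ℝ (Complex.I * e i) (d (vtx (i, true))) := by
    intro i
    have h1 := L.perp i
    have h2 := L'.perp i
    simp only [hφdef, hd, inner_sub_right] at *
    linarith
  have hφe : ∀ s : ι × Bool, φ s.1 = inner ℝ (Complex.I * e s.1) (d (vtx s)) := by
    rintro ⟨i, b⟩
    cases b
    · rfl
    · exact hφt i
  have hdB : ∀ w ∈ Bd, d w = 0 := fun w hw => by
    simp only [hd, L.bd w hw, L'.bd w hw, sub_self]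
  set ψ : ι → ℝ := fun i => c i * φ i with hψdef
  have hψ : Circ vtx Bd ψ := by
    refine ⟨fun w hw => ?_, fun s hs => ?_⟩
    · have h1 : ∀ s ∈ Finset.univ.filter (fun s => vtx s = w), sgn s.2 * ψ s.1 =
          inner ℝ (Complex.I * (c s.1 • EE e s)) (d w) := by
        intro s hs
        simp only [hψdef]
        rw [hφe s, (Finset.mem_filter.1 hs).2, EE, mul_smul_comm, mul_smul_comm,
          real_inner_smul_left, real_inner_smul_left]
        ring
      rw [Finset.sum_congr rfl h1, ← sum_inner, ← Finset.mul_sum, he.bal w hw]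
      simp
    · simp only [hψdef]
      rw [hφe s, hdB _ hs, inner_zero_right, mul_zero]
  obtain ⟨c₀, hcA⟩ := h.area_const he hc hψ
  have cA : ∀ {z : W → ℂ} {G : Filter ℝ}, Tendsto (fun t w => p w t) G (𝓝 z) →
      Tendsto (fun t => AreaL vtx ψ (fun w => p w t)) G (𝓝 (AreaL vtx ψ z)) := by
    intro z G hz
    have hw : ∀ w, Tendsto (fun t => p w t) G (𝓝 (z w)) := fun w => (tendsto_pi_nhds.1 hz) w
    unfold AreaL
    exact tendsto_finsetSum _ (fun i _ => Tendsto.const_mul _
      (((hw _).const_mul _).inner (𝕜 := ℝ) (hw _)))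
  have hA : AreaL vtx ψ y = AreaL vtx ψ y' :=
    (tendsto_nhds_unique (cA hy) (hcA.mono_left hF)).trans
      (tendsto_nhds_unique (cA hy') (hcA.mono_left hF')).symm
  set ℓ : ι → ℝ := fun i => inner ℝ (e i) (y (vtx (i, true)) - y (vtx (i, false))) with hℓ
  set ℓ' : ι → ℝ := fun i => inner ℝ (e i) (y' (vtx (i, true)) - y' (vtx (i, false))) with hℓ'
  have yb : ∀ i, y (vtx (i, true)) = y (vtx (i, false)) + ℓ i • e i := by
    intro i
    have := decomp (he.norm i) (y (vtx (i, true)) - y (vtx (i, false)))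
    rw [L.perp i, zero_smul, add_zero] at this
    rw [← this]; ring
  have yb' : ∀ i, y' (vtx (i, true)) = y' (vtx (i, false)) + ℓ' i • e i := by
    intro i
    have := decomp (he.norm i) (y' (vtx (i, true)) - y' (vtx (i, false)))
    rw [L'.perp i, zero_smul, add_zero] at this
    rw [← this]; ring
  set g : W → ℝ := fun w => inner ℝ (Complex.I * y w) (d w) with hg
  have hkey : ∀ i, ψ i * inner ℝ (Complex.I * y' (vtx (i, false))) (y' (vtx (i, true))) -
      ψ i * inner ℝ (Complex.I * y (vtx (i, false))) (y (vtx (i, true))) =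
      (ψ i * g (vtx (i, true)) - ψ i * g (vtx (i, false))) - (ℓ i + ℓ' i) * (c i * φ i ^ 2) := by
    intro i
    have h1 : φ i = inner ℝ (Complex.I * e i) (y' (vtx (i, false)) - y (vtx (i, false))) := rfl
    have h2 : inner ℝ (Complex.I * y' (vtx (i, false))) (y' (vtx (i, true))) -
      inner ℝ (Complex.I * y (vtx (i, false))) (y (vtx (i, true))) =
      (g (vtx (i, true)) - g (vtx (i, false))) - (ℓ i + ℓ' i) * φ i := by
      simp only [hg, hd]
      rw [yb i, yb' i, h1]
      simp only [inner_eq, Complex.mul_re, Complex.mul_im, Complex.I_re, Complex.I_im,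
        Complex.add_re, Complex.add_im, Complex.sub_re, Complex.sub_im, Complex.real_smul,
        Complex.ofReal_re, Complex.ofReal_im]
      ring
    have h3 : ψ i = c i * φ i := rfl
    rw [h3]
    linear_combination (c i * φ i) * h2
  have hgsum : ∑ i, (ψ i * g (vtx (i, true)) - ψ i * g (vtx (i, false))) = 0 := by
    refine sum_ends vtx (fun s => ψ s.1 * g (vtx s)) (fun w => ?_)
    have h1 : ∀ s ∈ Finset.univ.filter (fun s => vtx s = w), sgn s.2 * (ψ s.1 * g (vtx s)) =
        (sgn s.2 * ψ s.1) * g w := by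
      intro s hs
      rw [(Finset.mem_filter.1 hs).2]; ring
    rw [Finset.sum_congr rfl h1, ← Finset.sum_mul]
    by_cases hw : w ∈ Bd
    · simp only [hg, hdB w hw, inner_zero_right, mul_zero]
    · rw [hψ.bal w hw, zero_mul]
  have hsum : ∑ i, (ℓ i + ℓ' i) * (c i * φ i ^ 2) = 0 := by
    have h1 : ∑ i, (ψ i * inner ℝ (Complex.I * y' (vtx (i, false))) (y' (vtx (i, true))) -
      ψ i * inner ℝ (Complex.I * y (vtx (i, false))) (y (vtx (i, true)))) = 0 := by
      rw [Finset.sum_sub_distrib]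
      exact sub_eq_zero.2 hA.symm
    rw [Finset.sum_congr rfl (fun i _ => hkey i), Finset.sum_sub_distrib, hgsum] at h1
    linarith
  have hz : ∀ i, (ℓ i + ℓ' i) * φ i ^ 2 = 0 := by
    intro i
    have h1 := (Finset.sum_eq_zero_iff_of_nonneg (fun i _ => ?_)).1 hsum i (Finset.mem_univ i)
    · rcases mul_eq_zero.1 h1 with h2 | h2
      · rw [h2, zero_mul]
      · rcases mul_eq_zero.1 h2 with h3 | h3
        · exact absurd h3 (h.cpos i).ne'
        · rw [h3, mul_zero]
    · exact mul_nonneg (add_nonneg (L.nonneg i) (L'.nonneg i))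
        (mul_nonneg (h.cpos i).le (sq_nonneg _))
  by_contra hne
  obtain ⟨w0, hw0⟩ := Function.ne_iff.1 hne
  have hd0 : d w0 ≠ 0 := fun h0 => hw0 (sub_eq_zero.1 h0).symm
  have hn0 : ‖d w0‖ ≠ 0 := norm_ne_zero_iff.2 hd0
  set C : Finset W := Finset.univ.filter (fun w => d w = d w0) with hC
  obtain ⟨s, hs1, hs2, hs3⟩ := h.exit he hc (C := C) ⟨w0, by simp [hC]⟩ (fun w hw hB => by
    have := (Finset.mem_filter.1 hw).2
    rw [hdB w hB] at this
    exact hd0 this.symm) (v := un (Complex.I * d w0)) (norm_un (by simpa using hd0))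
  have e1 : d (vtx s) = d w0 := (Finset.mem_filter.1 hs1).2
  have e2 : d (vtx (s.1, !s.2)) ≠ d w0 := fun h0 => hs2 (Finset.mem_filter.2 ⟨Finset.mem_univ _, h0⟩)
  have e3 : d (vtx (s.1, true)) ≠ d (vtx (s.1, false)) := by
    rcases s with ⟨i, b⟩
    cases b
    · simp only [Bool.not_false] at e2
      rw [e1]; exact e2
    · simp only [Bool.not_true] at e2
      rw [e1]; exact e2.symm
  have e4 : ℓ' s.1 ≠ ℓ s.1 := by
    intro h0
    apply e3
    simp only [hd]
    rw [yb, yb', h0]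
    ring
  have e5 : φ s.1 = 0 := by
    have h1 := hz s.1
    have h2 : ℓ s.1 + ℓ' s.1 ≠ 0 := by
      intro h0
      have h3 := L.nonneg s.1
      have h4 := L'.nonneg s.1
      apply e4
      change 0 ≤ ℓ s.1 at h3
      change 0 ≤ ℓ' s.1 at h4
      linarith
    rcases mul_eq_zero.1 h1 with h3 | h3
    · exact absurd h3 h2
    · exact pow_eq_zero_iff (by norm_num) |>.1 h3
  have e6 : inner ℝ (un (Complex.I * d w0)) (sgn s.2 • e s.1) = 0 := by
    rw [hφe s, e1] at e5
    rw [un, real_inner_smul_left, real_inner_smul_right]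
    have : inner ℝ (Complex.I * d w0) (e s.1) = - inner ℝ (Complex.I * e s.1) (d w0) := by
      simp only [inner_eq, Complex.mul_re, Complex.mul_im, Complex.I_re, Complex.I_im]
      ring
    rw [this, e5]
    simp
  rw [e6] at hs3
  norm_num at hs3

/-- **Convergence of the vertices.** -/
theorem WFlow.converges (h : WFlow c u ux uxx ut vtx p Bd) {e : ι → ℂ} (he : Dirs c ux vtx Bd e)
    (hc : ConvDir ux e) : ∃ q : W → ℂ, (∀ w, Tendsto (p w) atTop (𝓝 (q w))) ∧
      Lim vtx Bd p e q := by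
  obtain ⟨R, hR⟩ := h.bounded he hc
  set K : Set (W → ℂ) := Set.pi univ (fun _ => Metric.closedBall (0:ℂ) R) with hK
  have hKc : IsCompact K := isCompact_univ_pi (fun _ => isCompact_closedBall _ _)
  have hmem : ∀ᶠ t in atTop, (fun w => p w t) ∈ K := by
    filter_upwards [eventually_ge_atTop 1] with t ht
    intro w _
    simpa using hR w t ht
  obtain ⟨q, hqK, hq⟩ := hKc.exists_mapClusterPt (f := atTop) (u := fun t w => p w t)
    (le_principal_iff.2 hmem)
  obtain ⟨U, hU, hUq⟩ := mapClusterPt_iff_ultrafilter.1 hq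
  have hT : Tendsto (fun t w => p w t) atTop (𝓝 q) := by
    refine hKc.tendsto_nhds_of_unique_mapClusterPt hmem (fun y _ hy => ?_)
    obtain ⟨U', hU', hU'y⟩ := mapClusterPt_iff_ultrafilter.1 hy
    exact h.unique he hc hU' hU hU'y hUq
  exact ⟨q, fun w => (tendsto_pi_nhds.1 hT) w, h.lim_of_tendsto he hc le_rfl hT⟩

end Pool.Agent.KS6_83.NT
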