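import Pool.Graph.R_seed8.R732.Net.Defs

/-!
# Curvature flow of networks of plane curves with surface tensions

The plane is `ℂ`. A network consists of curves `γ i : [0,1] → ℂ`, `i ∈ ι`. The two ends of the curve
`i` are `(i, false)` (parameter `0`) and `(i, true)` (parameter `1`). Its combinatorial structure is
a map `vtx` from the curve ends to a finite set `W` of vertices; the vertices in `P ⊆ W` are the
fixed points, the other ones are the (free) junctions. The curve `i` has the surface tension
`c i > 0`. The curves may cross themselves and each other.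
-/

set_option autoImplicit false

open Set Filter Topology

namespace Pool.Agent.KS6_83.NT

open Pool.Agent.R732.Net

variable {ι W : Type*} [Fintype ι]

/-- The curve ends which sit at the vertex `w`. -/
noncomputable def endsOf (vtx : ι × Bool → W) (w : W) : Finset (ι × Bool) :=
  open Classical in Finset.univ.filter (fun d => vtx d = w)

/-- The curves `γ i t`, `0 < t`, move by curvature: the normal velocity is the curvature. The fixed
points do not move, and at the junctions the exterior unit tangents, multiplied by the surface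
tensions `c`, sum to `0` (Herring's condition, Young's law). -/
structure IsTensionFlow (c : ι → ℝ) (vtx : ι × Bool → W) (P : Set W) (γ : ι → ℝ → ℝ → ℂ) :
    Prop where
  tension : ∀ i, 0 < c i
  smooth : ∀ i, IsC21 (γ i)
  regular : ∀ i, ∀ t > 0, ∀ x ∈ Icc (0:ℝ) 1, dX (γ i t) x ≠ 0
  /-- all curve ends which belong to a vertex sit at the same point -/
  joined : ∀ d d', vtx d = vtx d' → ∀ t > 0,
    endpt (fun i => γ i t) d = endpt (fun i => γ i t) d'
  fixed : ∀ d, vtx d ∈ P → ∀ t > 0, endpt (fun i => γ i t) d = endpt (fun i => γ i 1) d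
  balanced : ∀ w ∉ P, ∀ t > 0, ∑ d ∈ endsOf vtx w, c d.1 • extTangent (fun i => γ i t) d = 0
  /-- `∂ₜ γ = k ν + λ τ` for some continuous `λ` -/
  motion : ∀ i, ∃ lam : ℝ → ℝ → ℝ, ContinuousOn (fun p : ℝ × ℝ => lam p.1 p.2) (Ioi 0 ×ˢ Icc 0 1) ∧
    ∀ t > 0, ∀ x ∈ Icc (0:ℝ) 1,
      deriv (fun s => γ i s x) t = kappa (γ i t) x • nu (γ i t) x + lam t x • tau (γ i t) x

/-- Exactly three curve ends sit at the vertex `w`, and each of their three surface tensions is less
than the sum of the other two. -/
def TripleJunction (c : ι → ℝ) (vtx : ι × Bool → W) (w : W) : Prop :=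
  (endsOf vtx w).card = 3 ∧ ∀ d ∈ endsOf vtx w, 2 * c d.1 < ∑ d' ∈ endsOf vtx w, c d'.1

/-- At the vertex `w` (of any number of curves) the angles between the exterior unit tangents do
not depend on the time, and the tangents are not all parallel. -/
def ConstantAngles (vtx : ι × Bool → W) (γ : ι → ℝ → ℝ → ℂ) (w : W) : Prop :=
  (∀ d ∈ endsOf vtx w, ∀ d' ∈ endsOf vtx w, ∀ t > 0, ∀ s > 0,
      extTangent (fun i => γ i t) d * (starRingEnd ℂ) (extTangent (fun i => γ i t) d') =
      extTangent (fun i => γ i s) d * (starRingEnd ℂ) (extTangent (fun i => γ i s) d')) ∧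
    ∃ d ∈ endsOf vtx w, ∃ d' ∈ endsOf vtx w,
      (extTangent (fun i => γ i 1) d *
        (starRingEnd ℂ) (extTangent (fun i => γ i 1) d')).im ≠ 0

/-- The segments from `a i` to `b i` have the vertices `vtx`, and the same fixed points as the
flow `γ`. -/
def SameVertices (vtx : ι × Bool → W) (P : Set W) (γ : ι → ℝ → ℝ → ℂ) (a b : ι → ℂ) : Prop :=
  (∀ d d', vtx d = vtx d' → limEnd a b d = limEnd a b d') ∧
    ∀ d, vtx d ∈ P → limEnd a b d = endpt (fun i => γ i 1) d

/-- As `t → ∞`, the curves `γ i t` converge (in the sense of the problem) to the segments from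
`a i` to `b i`, all unit tangents (also those of the curves which collapse to a point) converge
uniformly to the unit vectors `e i`, and the limit network is stationary for the weighted length.
-/
structure Converges (c : ι → ℝ) (vtx : ι × Bool → W) (P : Set W) (γ : ι → ℝ → ℝ → ℂ)
    (a b e : ι → ℂ) : Prop where
  curves : ConvergesTo γ a b
  unit : ∀ i, ‖e i‖ = 1
  tangents : ∀ i, ∀ ε > 0, ∀ᶠ t in atTop, ∀ x ∈ Icc (0:ℝ) 1, ‖tau (γ i t) x - e i‖ < ε
  segment : ∀ i, b i - a i = ‖b i - a i‖ • e i
  same : SameVertices vtx P γ a b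
  /-- the limit directions satisfy Herring's condition at every junction -/
  junctions : ∀ w ∉ P, ∑ d ∈ endsOf vtx w, c d.1 • cond d.2 (-e d.1) (e d.1) = 0
  /-- balance of the nondegenerate segments at every point other than the fixed points -/
  balance : ∀ q : ℂ, (∀ d, vtx d ∈ P → endpt (fun i => γ i 1) d ≠ q) →
    open Classical in
    ∑ d ∈ Finset.univ.filter (fun d : ι × Bool => a d.1 ≠ b d.1 ∧ limEnd a b d = q),
      c d.1 • limTangent a b d = 0
  /-- least weighted length among the networks of segments with the same vertices -/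
  minimal : ∀ a' b' : ι → ℂ, SameVertices vtx P γ a' b' →
    ∑ i, c i * ‖b i - a i‖ ≤ ∑ i, c i * ‖b' i - a' i‖

end Pool.Agent.KS6_83.NT
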