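import Pool.Agent.KS6_83.NT.D
import Pool.Agent.KS6_83.NT.Defs

/-!
Curvature flow of networks with surface tensions: from the definitions to the abstract setting, and
back.
-/

set_option autoImplicit false

open Set Filter Topology MeasureTheory

namespace Pool.Agent.KS6_83.NT

open Pool.Agent.R732.Net

/-- Herring's condition at a triple junction determines the angles. -/
lemma pair_const {c1 c2 c3 : ℝ} (h1 : 0 < c1) (h2 : 0 < c2) (h12 : c3 < c1 + c2)
    (h13 : c2 < c1 + c3) (h23 : c1 < c2 + c3) {T1 T2 T3 : ℝ → ℂ}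
    (hc1 : ContinuousOn T1 (Ioi 0)) (hc2 : ContinuousOn T2 (Ioi 0))
    (n1 : ∀ t > 0, ‖T1 t‖ = 1) (n2 : ∀ t > 0, ‖T2 t‖ = 1) (n3 : ∀ t > 0, ‖T3 t‖ = 1)
    (hs : ∀ t > 0, c1 • T1 t + c2 • T2 t + c3 • T3 t = 0) :
    (∀ t > 0, ∀ s > 0, T1 t * (starRingEnd ℂ) (T2 t) = T1 s * (starRingEnd ℂ) (T2 s)) ∧
      ∀ t > 0, (T1 t * (starRingEnd ℂ) (T2 t)).im ≠ 0 := by
  have nsq : ∀ z : ℂ, ‖z‖ = 1 → z.re ^ 2 + z.im ^ 2 = 1 := by
    intro z hz
    have := Complex.sq_norm z
    rw [hz, Complex.normSq_apply] at this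
    nlinarith
  have hre : ∀ t > 0, (T1 t * (starRingEnd ℂ) (T2 t)).re = (c3 ^ 2 - c1 ^ 2 - c2 ^ 2) / (2 * c1 * c2) := by
    intro t ht
    have e := hs t ht
    have e1 := congrArg Complex.re e
    have e2 := congrArg Complex.im e
    simp only [Complex.add_re, Complex.add_im, Complex.real_smul, Complex.mul_re, Complex.mul_im,
      Complex.ofReal_re, Complex.ofReal_im, zero_mul, sub_zero, add_zero, Complex.zero_re,
      Complex.zero_im] at e1 e2
    have a1 := nsq _ (n1 t ht)
    have a2 := nsq _ (n2 t ht)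
    have a3 := nsq _ (n3 t ht)
    rw [eq_div_iff (by positivity)]
    simp only [Complex.mul_re, Complex.conj_re, Complex.conj_im]
    have b1 : c1 * (T1 t).re + c2 * (T2 t).re = -(c3 * (T3 t).re) := by linarith
    have b2 : c1 * (T1 t).im + c2 * (T2 t).im = -(c3 * (T3 t).im) := by linarith
    have b3 : (c1 * (T1 t).re + c2 * (T2 t).re) ^ 2 + (c1 * (T1 t).im + c2 * (T2 t).im) ^ 2 =
        c3 ^ 2 := by
      rw [b1, b2]
      linear_combination c3 ^ 2 * a3
    linear_combination b3 - c1 ^ 2 * a1 - c2 ^ 2 * a2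
  have hnorm : ∀ t > 0, ‖T1 t * (starRingEnd ℂ) (T2 t)‖ = 1 := by
    intro t ht
    rw [norm_mul, RCLike.norm_conj, n1 t ht, n2 t ht, mul_one]
  set r := (c3 ^ 2 - c1 ^ 2 - c2 ^ 2) / (2 * c1 * c2) with hr
  have hr1 : r ^ 2 < 1 := by
    rw [hr, div_pow, div_lt_one (by positivity)]
    have hc3 : 0 < c3 := by
      have := hs 1 one_pos
      by_contra hneg
      push Not at hneg
      linarith
    have : (2 * c1 * c2) ^ 2 - (c3 ^ 2 - c1 ^ 2 - c2 ^ 2) ^ 2 =
        (c1 + c2 - c3) * (c1 + c2 + c3) * ((c3 + c1 - c2) * (c3 + c2 - c1)) := by ring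
    have h4 : 0 < (c1 + c2 - c3) * (c1 + c2 + c3) * ((c3 + c1 - c2) * (c3 + c2 - c1)) := by
      apply mul_pos (mul_pos _ _) (mul_pos _ _) <;> linarith
    linarith
  have him : ∀ t > 0, (T1 t * (starRingEnd ℂ) (T2 t)).im ^ 2 = 1 - r ^ 2 := by
    intro t ht
    have := nsq _ (hnorm t ht)
    rw [hre t ht] at this
    linarith
  have hne : ∀ t > 0, (T1 t * (starRingEnd ℂ) (T2 t)).im ≠ 0 := by
    intro t ht h0
    have := him t ht
    rw [h0] at this
    nlinarith
  have hcont : ContinuousOn (fun t => (T1 t * (starRingEnd ℂ) (T2 t)).im) (Ioi 0) :=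
    Complex.continuous_im.comp_continuousOn
      (hc1.mul (Complex.continuous_conj.comp_continuousOn hc2))
  have hconst : ∀ s > 0, ∀ t > 0, (T1 t * (starRingEnd ℂ) (T2 t)).im =
      (T1 s * (starRingEnd ℂ) (T2 s)).im := by
    intro s hs' t ht
    have := (isPreconnected_Ioi (a := (0:ℝ))).eq_of_sq_eq hcont
      (g := fun _ => (T1 s * (starRingEnd ℂ) (T2 s)).im) continuousOn_const
      (fun x hx => by
        simp only [Pi.pow_apply]
        rw [him x hx, him s hs'])
      (fun _ => hne s hs') (y := s) hs' rfl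
    exact this ht
  refine ⟨fun t ht s hs' => ?_, hne⟩
  apply Complex.ext
  · rw [hre t ht, hre s hs']
  · exact hconst s hs' t ht

variable {ι W : Type*} [Fintype ι]

lemma mem_endsOf {vtx : ι × Bool → W} {w : W} {d : ι × Bool} : d ∈ endsOf vtx w ↔ vtx d = w := by
  simp [endsOf]

lemma endsOf_eq [DecidableEq W] (vtx : ι × Bool → W) (w : W) :
    Finset.univ.filter (fun d => vtx d = w) = endsOf vtx w := by
  ext d
  simp [mem_endsOf]

variable {c : ι → ℝ} {vtx : ι × Bool → W} {P : Set W} {γ : ι → ℝ → ℝ → ℂ}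

lemma extTangent_TT (t : ℝ) (d : ι × Bool) :
    extTangent (fun i => γ i t) d = TT (fun i t => dX (γ i t)) t d := by
  rw [extTangent_eq]
  rfl

omit [Fintype ι] in
lemma cont_TT (hs : ∀ i, IsC21 (γ i)) (hr : ∀ i, ∀ t > 0, ∀ x ∈ Icc (0:ℝ) 1, dX (γ i t) x ≠ 0)
    (d : ι × Bool) : ContinuousOn (fun t => TT (fun i t => dX (γ i t)) t d) (Ioi 0) := by
  have h1 : ContinuousOn (fun t => dX (γ d.1 t) (par d.2)) (Ioi 0) :=
    slice_cont_t (Y := fun t => dX (γ d.1 t)) (par_mem d.2) (hs d.1).cont_x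
  have h2 : ContinuousOn (fun t => un (dX (γ d.1 t) (par d.2))) (Ioi 0) := by
    unfold un
    refine ContinuousOn.smul (ContinuousOn.inv₀ h1.norm (fun t ht => ?_)) h1
    exact norm_ne_zero_iff.2 (hr d.1 t ht _ (par_mem _))
  have h3 : ContinuousOn (fun t => sgn d.2 • un (dX (γ d.1 t) (par d.2))) (Ioi 0) :=
    h2.const_smul (sgn d.2)
  exact h3

/-- Triple junctions with strict triangle inequalities have constant angles. -/
lemma IsTensionFlow.constantAngles (h : IsTensionFlow c vtx P γ) {w : W} (hw : w ∉ P)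
    (hT : TripleJunction c vtx w) : ConstantAngles vtx γ w := by
  classical
  obtain ⟨h3, htri⟩ := hT
  obtain ⟨x, y, z, hxy, hxz, hyz, hS⟩ := Finset.card_eq_three.1 h3
  have hnT : ∀ d, ∀ t > 0, ‖TT (fun i t => dX (γ i t)) t d‖ = 1 := fun d t ht =>
    norm_TT (fun i t ht x hx => h.regular i t ht x hx) ht d
  have hcT := fun d => cont_TT h.smooth h.regular d
  have hsum : ∀ f : ι × Bool → ℂ, ∑ d ∈ endsOf vtx w, f d = f x + f y + f z := by
    intro f
    rw [hS, Finset.sum_insert (by simp [hxy, hxz]), Finset.sum_pair hyz]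
    ring
  have hsumr : ∑ d ∈ endsOf vtx w, c d.1 = c x.1 + c y.1 + c z.1 := by
    rw [hS, Finset.sum_insert (by simp [hxy, hxz]), Finset.sum_pair hyz]
    ring
  have hb : ∀ t > 0, c x.1 • TT (fun i t => dX (γ i t)) t x +
      c y.1 • TT (fun i t => dX (γ i t)) t y + c z.1 • TT (fun i t => dX (γ i t)) t z = 0 := by
    intro t ht
    have := h.balanced w hw t ht
    rw [hsum] at this
    simpa only [extTangent_TT] using this
  have hx1 := htri x (by rw [hS]; simp)
  have hy1 := htri y (by rw [hS]; simp)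
  have hz1 := htri z (by rw [hS]; simp)
  rw [hsumr] at hx1 hy1 hz1
  have px := h.tension x.1
  have py := h.tension y.1
  have pz := h.tension z.1
  have A : ∀ d : ι × Bool, ∀ t > 0, ∀ s > 0,
      TT (fun i t => dX (γ i t)) t d * (starRingEnd ℂ) (TT (fun i t => dX (γ i t)) t d) =
      TT (fun i t => dX (γ i t)) s d * (starRingEnd ℂ) (TT (fun i t => dX (γ i t)) s d) := by
    intro d t ht s hs
    rw [Complex.mul_conj, Complex.mul_conj, Complex.normSq_eq_norm_sq, Complex.normSq_eq_norm_sq,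
      hnT d t ht, hnT d s hs]
  have Bxy := pair_const px py (by linarith : c z.1 < c x.1 + c y.1) (by linarith) (by linarith)
    (hcT x) (hcT y) (hnT x) (hnT y) (hnT z) hb
  have Bxz := pair_const px pz (by linarith : c y.1 < c x.1 + c z.1) (by linarith) (by linarith)
    (hcT x) (hcT z) (hnT x) (hnT z) (hnT y) (fun t ht => by rw [← hb t ht]; ring)
  have Byz := pair_const py pz (by linarith : c x.1 < c y.1 + c z.1) (by linarith) (by linarith)
    (hcT y) (hcT z) (hnT y) (hnT z) (hnT x) (fun t ht => by rw [← hb t ht]; ring)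
  have sym : ∀ {a b a' b' : ℂ}, a * (starRingEnd ℂ) b = a' * (starRingEnd ℂ) b' →
      b * (starRingEnd ℂ) a = b' * (starRingEnd ℂ) a' := by
    intro a b a' b' hh
    have := congrArg (starRingEnd ℂ) hh
    simp only [map_mul, Complex.conj_conj] at this
    rw [mul_comm b, mul_comm b', this]
  simp only [ConstantAngles, extTangent_TT]
  refine ⟨fun d hd d' hd' t ht s hs => ?_, x, by rw [hS]; simp, y, by rw [hS]; simp,
    Bxy.2 1 one_pos⟩
  rw [hS] at hd hd'
  simp only [Finset.mem_insert, Finset.mem_singleton] at hd hd'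
  rcases hd with rfl | rfl | rfl <;> rcases hd' with rfl | rfl | rfl
  · exact A _ t ht s hs
  · exact Bxy.1 t ht s hs
  · exact Bxz.1 t ht s hs
  · exact sym (Bxy.1 t ht s hs)
  · exact A _ t ht s hs
  · exact Byz.1 t ht s hs
  · exact sym (Bxz.1 t ht s hs)
  · exact sym (Byz.1 t ht s hs)
  · exact A _ t ht s hs

open Classical in
/-- the position of the vertex `w` -/
noncomputable def vposn (vtx : ι × Bool → W) (γ : ι → ℝ → ℝ → ℂ) (w : W) (t : ℝ) : ℂ :=
  if h : ∃ d, vtx d = w then endpt (fun i => γ i t) h.choose else 0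

lemma IsTensionFlow.vposn_eq (h : IsTensionFlow c vtx P γ) {t : ℝ} (ht : 0 < t) (d : ι × Bool) :
    vposn vtx γ (vtx d) t = endpt (fun i => γ i t) d := by
  have hex : ∃ d', vtx d' = vtx d := ⟨d, rfl⟩
  rw [vposn, dif_pos hex]
  exact h.joined _ _ hex.choose_spec t ht

lemma IsTensionFlow.wflow [Fintype W] [DecidableEq W] (h : IsTensionFlow c vtx P γ)
    (hA : ∀ w ∉ P, ConstantAngles vtx γ w) :
    WFlow c γ (fun i t => dX (γ i t)) (fun i t => dX (dX (γ i t)))
      (fun i t x => deriv (fun s => γ i s x) t) vtx (vposn vtx γ) P := by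
  refine ⟨h.tension, fun i => (h.smooth i).cdata, h.regular, fun i t ht x hx => ?_,
    fun d t ht => ?_, fun w hw t ht => ?_, fun w hw t ht => ?_, fun d d' hd hP t ht s hs => ?_,
    fun w hw v hv => ?_⟩
  · obtain ⟨lam, _, hlam⟩ := h.motion i
    exact ⟨lam t x, hlam t ht x hx⟩
  · exact (h.vposn_eq ht d).symm
  · by_cases hex : ∃ d, vtx d = w
    · obtain ⟨d, rfl⟩ := hex
      rw [h.vposn_eq ht, h.vposn_eq one_pos]
      exact h.fixed d hw t ht
    · rw [vposn, vposn, dif_neg hex, dif_neg hex]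
  · rw [endsOf_eq]
    have := h.balanced w hw t ht
    simpa only [extTangent_TT] using this
  · have := (hA (vtx d) hP).1 d (mem_endsOf.2 rfl) d' (mem_endsOf.2 hd.symm) t ht s hs
    simpa only [extTangent_TT] using this
  · obtain ⟨d, hd, d', hd', him⟩ := (hA w hw).2
    by_contra hc
    push Not at hc
    have e1 := hc d (mem_endsOf.1 hd)
    have e2 := hc d' (mem_endsOf.1 hd')
    apply him
    rw [extTangent_TT, extTangent_TT]
    set A := TT (fun i t => dX (γ i t)) 1 d
    set B := TT (fun i t => dX (γ i t)) 1 d'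
    rw [inner_eq] at e1 e2
    simp only [Complex.mul_im, Complex.conj_re, Complex.conj_im]
    have h3 : v.re ≠ 0 ∨ v.im ≠ 0 := by
      by_contra h4
      push Not at h4
      exact hv (Complex.ext h4.1 h4.2)
    rcases h3 with h3 | h3
    · apply mul_left_cancel₀ h3
      linear_combination (-B.im) * e1 + A.im * e2
    · apply mul_left_cancel₀ h3
      linear_combination B.re * e1 - A.re * e2

end Pool.Agent.KS6_83.NT
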