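import Pool.Agent.KS6_83.NT.E

/-!
Curvature flow of networks with surface tensions: convergence.
-/

set_option autoImplicit false

open Set Filter Topology MeasureTheory

namespace Pool.Agent.KS6_83.NT

open Pool.Agent.R732.Net

variable {ι W : Type*} [Fintype ι]
variable {c : ι → ℝ} {vtx : ι × Bool → W} {P : Set W} {γ : ι → ℝ → ℝ → ℂ}

omit [Fintype ι] in
lemma limEnd_vtx (vtx : ι × Bool → W) (q : W → ℂ) (e : ι × Bool) :
    limEnd (fun i => q (vtx (i, false))) (fun i => q (vtx (i, true))) e = q (vtx e) := by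
  rcases e with ⟨i, b⟩
  cases b <;> simp [limEnd]

open Classical in
/-- **Every network flow with tensions which exists for all times converges**. -/
theorem IsTensionFlow.converges [Fintype W] (h : IsTensionFlow c vtx P γ)
    (hA : ∀ w ∉ P, ConstantAngles vtx γ w) : ∃ a b e : ι → ℂ, Converges c vtx P γ a b e := by
  have A := h.wflow hA
  obtain ⟨e, he, hc⟩ := A.exists_convDir
  obtain ⟨q, hq, hL⟩ := A.converges he hc
  have hqfix : ∀ d, vtx d ∈ P → q (vtx d) = endpt (fun i => γ i 1) d := by
    intro d hd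
    have h1 := hL.bd (vtx d) hd
    rw [h1, h.vposn_eq one_pos]
  set a : ι → ℂ := fun i => q (vtx (i, false)) with ha
  set b : ι → ℂ := fun i => q (vtx (i, true)) with hb
  have hchord : ∀ i, b i - a i = ‖b i - a i‖ • e i := fun i => chord_eq he.norm hL i
  -- reparametrisations
  have hrep : ∀ (i : ι) (t : ℝ), ∃ θ : ℝ → ℝ, 0 < t → (IsReparam θ ∧ ∀ x ∈ Icc (0:ℝ) 1,
      HasDerivWithinAt θ ((∫ y in (0:ℝ)..1, ‖dX (γ i t) y‖) / ‖dX (γ i t) (θ x)‖) (Icc 0 1) x) := by
    intro i t
    by_cases ht : 0 < t
    · obtain ⟨θ, h1, h2⟩ := exists_reparam (A.cux ht i) (A.reg i t ht)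
      exact ⟨θ, fun _ => ⟨h1, h2⟩⟩
    · exact ⟨id, fun h0 => absurd h0 ht⟩
  choose θ hθ using hrep
  have hconv : ∀ i, ∀ ε > 0, ∀ᶠ t in atTop, ∀ x ∈ Icc (0:ℝ) 1,
      ‖γ i t (θ i t x) - seg (a i) (b i) x‖ < ε ∧
      ‖dX (fun y => γ i t (θ i t y)) x - dX (seg (a i) (b i)) x‖ < ε := by
    intro i ε hε
    filter_upwards [A.c1_conv he hc hq hL i hε, eventually_gt_atTop 0] with t h1 h2
    exact h1 (θ i t) (hθ i t h2).1 (hθ i t h2).2
  refine ⟨a, b, e, ⟨⟨?_, fun i => A.length_conv he hc hq hL i, fun i hi ε hε => ?_, fun i _ =>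
    ⟨θ i, fun t ht => (hθ i t ht).1, hconv i⟩⟩, he.norm, fun i ε hε => ?_, hchord,
    ⟨fun d d' hdd => ?_, fun d hd => ?_⟩, fun w hw => ?_, fun z hz => ?_,
    fun a' b' hs => ?_⟩⟩
  · -- Hausdorff convergence
    rw [Metric.tendsto_atTop']
    intro ε hε
    have h1 : ∀ᶠ t in atTop, ∀ i, ∀ x ∈ Icc (0:ℝ) 1,
        ‖γ i t (θ i t x) - seg (a i) (b i) x‖ < ε / 2 := by
      rw [eventually_all]
      intro i
      filter_upwards [hconv i (ε / 2) (half_pos hε)] with t ht x hx
      exact (ht x hx).1
    obtain ⟨T, hT⟩ := (h1.and (eventually_gt_atTop 0)).exists_forall_of_atTop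
    refine ⟨T, fun t ht => ?_⟩
    obtain ⟨h2, h3⟩ := hT t ht.le
    rw [Real.dist_eq, sub_zero, abs_of_nonneg Metric.hausdorffDist_nonneg]
    refine lt_of_le_of_lt (Metric.hausdorffDist_le_of_mem_dist (half_pos hε).le ?_ ?_) (half_lt_self hε)
    · intro y hy
      obtain ⟨i, hi⟩ := mem_iUnion.1 hy
      obtain ⟨z, hz, rfl⟩ := hi
      obtain ⟨x, hx, rfl⟩ := (hθ i t h3).1.bij.surjOn hz
      refine ⟨seg (a i) (b i) x, mem_iUnion.2 ⟨i, x, hx, rfl⟩, ?_⟩
      rw [dist_eq_norm]
      exact (h2 i x hx).le
    · intro y hy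
      obtain ⟨i, hi⟩ := mem_iUnion.1 hy
      obtain ⟨x, hx, rfl⟩ := hi
      refine ⟨γ i t (θ i t x), mem_iUnion.2 ⟨i, θ i t x, (hθ i t h3).1.bij.mapsTo hx, rfl⟩, ?_⟩
      rw [dist_comm, dist_eq_norm]
      exact (h2 i x hx).le
  · -- collapse
    filter_upwards [hconv i ε hε, eventually_gt_atTop 0] with t h1 h2 z hz
    obtain ⟨x, hx, rfl⟩ := (hθ i t h2).1.bij.surjOn hz
    have h3 := (h1 x hx).1
    have h4 : seg (a i) (b i) x = a i := by simp [seg, ← hi]
    rwa [h4] at h3
  · -- tangents
    obtain ⟨T, hT, hcone⟩ := hc (ε / 4) (by positivity)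
    filter_upwards [eventually_ge_atTop T, eventually_gt_atTop 0] with t ht ht0 x hx
    have h1 := close_of_cone (he.norm i) (h.regular i t ht0 x hx) (by positivity : 0 < ε / 4)
      (hcone t ht i x hx)
    have h2 : tau (γ i t) x = un (dX (γ i t) x) := rfl
    rw [h2]
    exact lt_of_le_of_lt h1 (by linarith)
  · -- incidence
    rw [limEnd_vtx, limEnd_vtx, hdd]
  · -- fixed points
    rw [limEnd_vtx, hqfix d hd]
  · -- Herring's condition for the limit directions
    have hE : endsOf vtx w = Finset.univ.filter (fun d => vtx d = w) := by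
      ext d; simp [mem_endsOf]
    rw [← he.bal w hw, hE]
    refine Finset.sum_congr rfl (fun d _ => ?_)
    congr 1
    rcases d with ⟨i, s⟩
    cases s <;> simp [EE, sgn]
  · -- balance
    have hT : ∀ d ∈ Finset.univ.filter (fun d : ι × Bool => a d.1 ≠ b d.1 ∧ limEnd a b d = z),
        c d.1 • limTangent a b d = c d.1 • EE e d := by
      intro d hd
      have hne : b d.1 - a d.1 ≠ 0 := sub_ne_zero.2 (Finset.mem_filter.1 hd).2.1.symm
      have hn : ‖b d.1 - a d.1‖ ≠ 0 := norm_ne_zero_iff.2 hne
      have h1 : (‖b d.1 - a d.1‖⁻¹ : ℝ) • (b d.1 - a d.1) = e d.1 := by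
        have := hchord d.1
        calc (‖b d.1 - a d.1‖⁻¹ : ℝ) • (b d.1 - a d.1) =
              (‖b d.1 - a d.1‖⁻¹ : ℝ) • (‖b d.1 - a d.1‖ • e d.1) := by rw [← this]
          _ = e d.1 := by rw [smul_smul, inv_mul_cancel₀ hn, one_smul]
      congr 1
      rcases d with ⟨i, s⟩
      cases s
      · simp only [limTangent, cond_false, EE, sgn, one_smul]
        exact h1
      · simp only [limTangent, cond_true, EE, sgn, neg_smul, one_smul]
        rw [← neg_sub (b i) (a i), smul_neg]
        exact congrArg Neg.neg h1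
    rw [Finset.sum_congr rfl hT]
    have hall : ∑ d ∈ Finset.univ.filter (fun d : ι × Bool => limEnd a b d = z),
        c d.1 • EE e d = 0 := by
      have h1 : ∀ d : ι × Bool, limEnd a b d = q (vtx d) := fun d => limEnd_vtx vtx q d
      rw [← Finset.sum_fiberwise _ vtx]
      refine Finset.sum_eq_zero (fun w _ => ?_)
      rw [Finset.filter_filter]
      by_cases hw : q w = z
      · have h2 : Finset.univ.filter (fun d : ι × Bool => limEnd a b d = z ∧ vtx d = w) =
            Finset.univ.filter (fun d : ι × Bool => vtx d = w) := by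
          ext d
          simp only [Finset.mem_filter, Finset.mem_univ, true_and]
          constructor
          · exact fun h => h.2
          · intro hd
            exact ⟨by rw [h1, hd, hw], hd⟩
        rw [h2]
        by_cases hwP : w ∈ P
        · -- no curve end sits at `w`
          refine Finset.sum_eq_zero (fun d hd => ?_)
          exfalso
          have hd' := (Finset.mem_filter.1 hd).2
          subst hd'
          apply hz d hwP
          rw [← hqfix d hwP, hw]
        · exact he.bal w hwP
      · refine Finset.sum_eq_zero (fun d hd => ?_)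
        exfalso
        have h3 := (Finset.mem_filter.1 hd).2
        apply hw
        rw [← h3.2, ← h1, h3.1]
    have hcol : ∑ d ∈ Finset.univ.filter (fun d : ι × Bool => a d.1 = b d.1 ∧ limEnd a b d = z),
        c d.1 • EE e d = 0 := by
      rw [Finset.sum_filter, Fintype.sum_prod_type]
      refine Finset.sum_eq_zero (fun i _ => ?_)
      rw [Fintype.sum_bool]
      by_cases hi : a i = b i
      · have h1 : limEnd a b (i, true) = limEnd a b (i, false) := by
          simp only [limEnd, cond_true, cond_false, hi]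
        simp only [h1, EE, sgn, cond_true, cond_false]
        split_ifs <;> simp
      · simp [hi]
    have hsplit := Finset.sum_filter_add_sum_filter_not
      (Finset.univ.filter (fun d : ι × Bool => limEnd a b d = z))
      (fun d => a d.1 ≠ b d.1) (fun d => c d.1 • EE e d)
    rw [Finset.filter_filter, Finset.filter_filter, hall] at hsplit
    have e1 : Finset.univ.filter (fun d : ι × Bool => limEnd a b d = z ∧ a d.1 ≠ b d.1) =
        Finset.univ.filter (fun d : ι × Bool => a d.1 ≠ b d.1 ∧ limEnd a b d = z) := by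
      ext d; simp [and_comm]
    have e2 : Finset.univ.filter (fun d : ι × Bool => limEnd a b d = z ∧ ¬ (a d.1 ≠ b d.1)) =
        Finset.univ.filter (fun d : ι × Bool => a d.1 = b d.1 ∧ limEnd a b d = z) := by
      ext d; simp [and_comm]
    rw [e1, e2, hcol, add_zero] at hsplit
    exact hsplit
  · -- minimality
    set y' : W → ℂ := fun w => if h : ∃ d, vtx d = w then limEnd a' b' h.choose else q w with hy'
    have hy'e : ∀ d : ι × Bool, y' (vtx d) = limEnd a' b' d := fun d => by
      have hex : ∃ d', vtx d' = vtx d := ⟨d, rfl⟩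
      simp only [hy']
      rw [dif_pos hex]
      exact hs.1 _ _ hex.choose_spec
    have h0 : ∑ i, c i * inner ℝ (e i) ((b' i - a' i) - (b i - a i)) = 0 := by
      have h1 := sum_ends vtx (fun d => c d.1 * inner ℝ (e d.1) (y' (vtx d) - q (vtx d)))
        (fun w => ?_)
      · refine (Finset.sum_congr rfl (fun i _ => ?_)).trans h1
        rw [hy'e, hy'e, ← mul_sub, ← inner_sub_right]
        congr 2
        simp only [limEnd, cond_true, cond_false, ha, hb]
        ring
      · have h2 : ∀ d ∈ Finset.univ.filter (fun d => vtx d = w),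
            sgn d.2 * (c d.1 * inner ℝ (e d.1) (y' (vtx d) - q (vtx d))) =
            inner ℝ (c d.1 • EE e d) (y' w - q w) := by
          intro d hd
          rw [(Finset.mem_filter.1 hd).2, EE, real_inner_smul_left, real_inner_smul_left]
          ring
        rw [Finset.sum_congr rfl h2, ← sum_inner]
        by_cases hw : w ∈ P
        · have h3 : y' w - q w = 0 := by
            by_cases hex : ∃ d, vtx d = w
            · obtain ⟨d, rfl⟩ := hex
              rw [hy'e, hs.2 d hw, hqfix d hw, sub_self]
            · simp only [hy']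
              rw [dif_neg hex, sub_self]
          rw [h3, inner_zero_right]
        · rw [he.bal w hw, inner_zero_left]
    have h1 : ∑ i, c i * inner ℝ (e i) (b' i - a' i) = ∑ i, c i * ‖b i - a i‖ := by
      have h2 : ∀ i, inner ℝ (e i) (b i - a i) = ‖b i - a i‖ := by
        intro i
        have h3 : inner ℝ (e i) (b i - a i) = inner ℝ (e i) (‖b i - a i‖ • e i) :=
          congrArg (fun z => (inner ℝ (e i) z : ℝ)) (hchord i)
        rw [h3, real_inner_smul_right, real_inner_self_eq_norm_sq, he.norm]
        ring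
      simp only [inner_sub_right (e _) (b' _ - a' _) (b _ - a _), mul_sub] at h0
      rw [Finset.sum_sub_distrib] at h0
      rw [← Finset.sum_congr rfl (fun i _ => congrArg (fun r => c i * r) (h2 i))]
      linarith
    rw [← h1]
    refine Finset.sum_le_sum (fun i _ => mul_le_mul_of_nonneg_left ?_ (h.tension i).le)
    refine (real_inner_le_norm _ _).trans ?_
    rw [he.norm, one_mul]

end Pool.Agent.KS6_83.NT
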