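import Pool.Agent.KS6_83.NT.F

/-!
The curvature flows of regular networks, as in the problem, are flows with tensions.
-/

set_option autoImplicit false

open Set Filter Topology MeasureTheory

namespace Pool.Agent.KS6_83.NT

open Pool.Agent.R732.Net

variable {ι : Type*} [Fintype ι] {Ω : Set ℂ} {σ : ι → ℝ → ℂ} {γ : ι → ℝ → ℝ → ℂ}

lemma tensionFlow_of (hΩ : IsOpen Ω) (hσ : IsNetwork Ω σ) (h : IsCurvatureFlow Ω σ γ) :
    IsTensionFlow (fun _ => 1) (vx σ) {w | w.1 ∈ frontier Ω} γ := by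
  classical
  have A := h.aflow hΩ hσ
  refine ⟨fun _ => one_pos, h.smooth, fun i t ht x hx => (h.network t ht).regular i x hx,
    fun d d' hd t ht => ?_, fun d hd t ht => ?_, fun w hw t ht => ?_, h.motion⟩
  · exact (h.incidence hΩ hσ ht.le d d').2 (vx_eq.1 hd)
  · rw [h.fixed d hd t ht, h.fixed d hd 1 one_pos]
  · have h1 := A.bal w hw t ht
    rw [← h1]
    have hE : endsOf (vx σ) w = Finset.univ.filter (fun d => vx σ d = w) := by
      ext d; simp [mem_endsOf]
    rw [hE]
    refine Finset.sum_congr rfl (fun d _ => ?_)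
    rw [one_smul, extTangent_eq]

lemma tripleJunction_of (hΩ : IsOpen Ω) (hσ : IsNetwork Ω σ) (h : IsCurvatureFlow Ω σ γ)
    {w : Vtx σ} (hw : w.1 ∉ frontier Ω) : TripleJunction (fun _ : ι => (1:ℝ)) (vx σ) w := by
  classical
  have A := h.aflow hΩ hσ
  have hE : endsOf (vx σ) w = Finset.univ.filter (fun d => vx σ d = w) := by
    ext d; simp [mem_endsOf]
  have h3 : (endsOf (vx σ) w).card = 3 := by
    rw [hE]
    exact A.deg w hw
  refine ⟨h3, fun d _ => ?_⟩
  rw [Finset.sum_const, h3]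
  norm_num

lemma stationary_of {a b e : ι → ℂ} (h : IsCurvatureFlow Ω σ γ)
    (hC : Converges (fun _ => 1) (vx σ) {w | w.1 ∈ frontier Ω} γ a b e) :
    IsStationary Ω σ a b := by
  refine ⟨⟨fun d d' hd => hC.same.1 d d' (vx_eq.2 hd), fun d hd => ?_⟩, fun q hq => ?_,
    fun a' b' hs => ?_⟩
  · rw [hC.same.2 d hd]
    exact h.fixed d hd 1 one_pos
  · have h1 := hC.balance q (fun d hd => by
      rw [h.fixed d hd 1 one_pos]
      exact hq d hd)
    simpa only [one_smul] using h1
  · have h1 := hC.minimal a' b' ⟨fun d d' hd => hs.incidence d d' (vx_eq.1 hd), fun d hd => by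
      rw [hs.fixed d hd]
      exact (h.fixed d hd 1 one_pos).symm⟩
    simpa only [one_mul] using h1

end Pool.Agent.KS6_83.NT
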